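import Pool.Agent.N587.SE.Walk

/-!
Small-set expansion: decay of the heat kernel.
-/

set_option autoImplicit false
set_option linter.unusedSectionVars false
set_option linter.unusedVariables false

namespace Pool.Agent.N587.SE

open Finset

section
variable {V : Type} [Fintype V] [DecidableEq V]

/-- the walk killed outside `U` -/
noncomputable def kil (w : V → V → ℝ) (d : ℝ) (U : Finset V) : Matrix V V ℝ :=
  fun u v => if u ∈ U ∧ v ∈ U then w u v / d else 0

/-- the lazy walk -/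
noncomputable def laz (w : V → V → ℝ) (d : ℝ) : Matrix V V ℝ :=
  fun u v => (if u = v then 1 / 2 else 0) + w u v / (2 * d)

theorem kil_nonneg {w : V → V → ℝ} (hw : ∀ u v, 0 ≤ w u v) {d : ℝ} (hd : 0 < d) (U : Finset V)
    (u v : V) : 0 ≤ kil w d U u v := by
  unfold kil
  split_ifs
  · exact div_nonneg (hw u v) hd.le
  · exact le_rfl

theorem kil_symm {w : V → V → ℝ} (hs : ∀ u v, w u v = w v u) (d : ℝ) (U : Finset V) :
    (kil w d U).transpose = kil w d U := by
  ext u v
  rw [Matrix.transpose_apply]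
  unfold kil
  rw [hs v u]
  exact if_congr and_comm rfl rfl

theorem kil_row {w : V → V → ℝ} (hw : ∀ u v, 0 ≤ w u v) {d : ℝ} (hd : 0 < d)
    (hr : ∀ u, ∑ v, w u v = d) (U : Finset V) (u : V) : ∑ v, kil w d U u v ≤ 1 := by
  calc ∑ v, kil w d U u v ≤ ∑ v, w u v / d := by
        refine sum_le_sum fun v _ => ?_
        unfold kil
        split_ifs
        · exact le_rfl
        · exact div_nonneg (hw u v) hd.le
    _ = 1 := by rw [← sum_div, hr, div_self hd.ne']

/-- decay of the killed walk -/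
theorem kil_dec {w : V → V → ℝ} (hw : ∀ u v, 0 ≤ w u v) (hs : ∀ u v, w u v = w v u) {d : ℝ}
    (hd : 0 < d) (hr : ∀ u, ∑ v, w u v = d) (U : Finset V) (θ s0 : ℝ) (hθ : 0 < θ)
    (hθ1 : θ ≤ 1 / 16) (hs0 : 0 < s0)
    (hT : ∀ T : Finset V, T ⊆ U → (T.card : ℝ) ≤ s0 → eIn w T ≤ θ * d * T.card)
    (g : V → ℝ) (hg : ∀ v, 0 ≤ g v) (hg1 : ∑ v, g v ≤ 1) :
    ∑ u, ((kil w d U).mulVec g u) ^ 2 ≤ 8 * θ * ∑ v, g v ^ 2 + (1 - 8 * θ) * (16 / s0) := by
  obtain ⟨R, hR⟩ : ∃ R, R = kil w d U := ⟨_, rfl⟩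
  obtain ⟨c, hc⟩ : ∃ c : ℝ, c = 2 / s0 := ⟨_, rfl⟩
  have hc0 : 0 < c := by rw [hc]; positivity
  have hR0 : ∀ u v, 0 ≤ R u v := fun u v => by rw [hR]; exact kil_nonneg hw hd U u v
  have hRr : ∀ u, ∑ v, R u v ≤ 1 := fun u => by rw [hR]; exact kil_row hw hd hr U u
  have hRs : ∀ u v, R u v = R v u := fun u v => by
    have := congrFun (congrFun (kil_symm hs d U) v) u
    rw [Matrix.transpose_apply, ← hR] at this
    exact this
  have hRc : ∀ v, ∑ u, R u v ≤ 1 := fun v => by
    refine le_trans (le_of_eq (sum_congr rfl fun u _ => hRs u v)) (hRr v)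
  have hRU : ∀ u v, ¬ (u ∈ U ∧ v ∈ U) → R u v = 0 := fun u v h => by
    rw [hR]; unfold kil; rw [if_neg h]
  have hRw : ∀ u v, u ∈ U → v ∈ U → R u v = w u v / d := fun u v h1 h2 => by
    rw [hR]; unfold kil; rw [if_pos ⟨h1, h2⟩]
  rw [← hR]
  obtain ⟨g', hg'⟩ : ∃ g', g' = R.mulVec g := ⟨_, rfl⟩
  have hg'e : ∀ u, g' u = ∑ v, R u v * g v := fun u => by rw [hg']; rfl
  have hg'0 : ∀ u, 0 ≤ g' u := fun u => by
    rw [hg'e]; exact sum_nonneg fun v _ => mul_nonneg (hR0 u v) (hg v)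
  have hg'1 : ∑ u, g' u ≤ 1 := by
    simp only [hg'e]
    rw [sum_comm]
    calc ∑ v, ∑ u, R u v * g v = ∑ v, (∑ u, R u v) * g v :=
          sum_congr rfl fun v _ => (sum_mul _ _ _).symm
      _ ≤ ∑ v, 1 * g v := sum_le_sum fun v _ => mul_le_mul_of_nonneg_right (hRc v) (hg v)
      _ ≤ 1 := by simpa using hg1
  rw [← hg']
  -- the large values
  obtain ⟨A, hA⟩ : ∃ A : Finset V, A = U.filter fun v => c < g v := ⟨_, rfl⟩
  obtain ⟨A', hA'⟩ : ∃ A' : Finset V, A' = U.filter fun v => c < g' v := ⟨_, rfl⟩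
  have hcard : ∀ (x : V → ℝ), (∀ v, 0 ≤ x v) → ∑ v, x v ≤ 1 →
      ((U.filter fun v => c < x v).card : ℝ) ≤ s0 / 2 := by
    intro x hx hx1
    have h1 : ((U.filter fun v => c < x v).card : ℝ) * c ≤ 1 := by
      calc ((U.filter fun v => c < x v).card : ℝ) * c = ∑ _v ∈ U.filter fun v => c < x v, c := by
            rw [sum_const, nsmul_eq_mul]
        _ ≤ ∑ v ∈ U.filter fun v => c < x v, x v := by
            refine sum_le_sum fun v hv => ?_
            rw [mem_filter] at hv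
            exact hv.2.le
        _ ≤ ∑ v, x v := sum_le_sum_of_subset_of_nonneg (subset_univ _) fun v _ _ => hx v
        _ ≤ 1 := hx1
    have h2 : ((U.filter fun v => c < x v).card : ℝ) * (2 / s0) ≤ 1 := by rw [← hc]; exact h1
    rw [mul_div_assoc', div_le_one hs0] at h2
    linarith
  have hAc := hcard g hg hg1
  have hAc' := hcard g' hg'0 hg'1
  rw [← hA] at hAc
  rw [← hA'] at hAc'
  let f : V → ℝ := fun v => if v ∈ A then g v else 0
  let f' : V → ℝ := fun v => if v ∈ A' then g' v else 0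
  have hf0 : ∀ v, 0 ≤ f v := fun v => by simp only [f]; split_ifs; exacts [hg v, le_rfl]
  have hf'0 : ∀ v, 0 ≤ f' v := fun v => by simp only [f']; split_ifs; exacts [hg'0 v, le_rfl]
  have hfg : ∀ v, f v ≤ g v := fun v => by simp only [f]; split_ifs; exacts [le_rfl, hg v]
  have hfg' : ∀ v, f' v ≤ g' v := fun v => by simp only [f']; split_ifs; exacts [le_rfl, hg'0 v]
  -- truncation
  have h1 : ∀ u v, R u v * (g' u * g v) ≤
      R u v * (f' u * f v) + c * (R u v * g v) + c * (R u v * g' u) := by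
    intro u v
    by_cases huv : u ∈ U ∧ v ∈ U
    · have h2 : g' u * g v ≤ f' u * f v + c * g v + c * g' u := by
        by_cases h3 : u ∈ A'
        · by_cases h4 : v ∈ A
          · simp only [f, f', h3, h4, if_true]
            have := mul_nonneg hc0.le (hg v)
            have := mul_nonneg hc0.le (hg'0 u)
            linarith
          · have h5 : g v ≤ c := by
              by_contra h6
              exact h4 (by rw [hA, mem_filter]; exact ⟨huv.2, not_le.1 h6⟩)
            have h7 := mul_le_mul_of_nonneg_left h5 (hg'0 u)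
            have := mul_nonneg hc0.le (hg v)
            have := mul_nonneg (hf'0 u) (hf0 v)
            nlinarith
        · have h5 : g' u ≤ c := by
            by_contra h6
            exact h3 (by rw [hA', mem_filter]; exact ⟨huv.1, not_le.1 h6⟩)
          have h7 := mul_le_mul_of_nonneg_right h5 (hg v)
          have := mul_nonneg hc0.le (hg'0 u)
          have := mul_nonneg (hf'0 u) (hf0 v)
          nlinarith
      have := mul_le_mul_of_nonneg_left h2 (hR0 u v)
      nlinarith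
    · rw [hRU u v huv]
      simp
  have hY' : ∑ u, g' u ^ 2 = ∑ u, ∑ v, R u v * (g' u * g v) := by
    refine sum_congr rfl fun u _ => ?_
    rw [sq]
    nth_rw 2 [hg'e u]
    rw [mul_sum]
    exact sum_congr rfl fun v _ => by ring
  have h2 : ∑ u, g' u ^ 2 ≤ ∑ u, ∑ v, R u v * (f' u * f v) + 2 * c := by
    rw [hY']
    have h3 : ∑ u, ∑ v, R u v * (g' u * g v) ≤ ∑ u, ∑ v, R u v * (f' u * f v) +
        c * ∑ u, ∑ v, R u v * g v + c * ∑ u, ∑ v, R u v * g' u := by
      simp only [mul_sum]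
      rw [← sum_add_distrib, ← sum_add_distrib]
      refine sum_le_sum fun u _ => ?_
      rw [← sum_add_distrib, ← sum_add_distrib]
      exact sum_le_sum fun v _ => h1 u v
    have h4 : ∑ u, ∑ v, R u v * g v ≤ 1 := by
      simp only [← hg'e]
      exact hg'1
    have h5 : ∑ u, ∑ v, R u v * g' u ≤ 1 := by
      calc ∑ u, ∑ v, R u v * g' u = ∑ u, (∑ v, R u v) * g' u :=
            sum_congr rfl fun u _ => (sum_mul _ _ _).symm
        _ ≤ ∑ u, 1 * g' u := sum_le_sum fun u _ => mul_le_mul_of_nonneg_right (hRr u) (hg'0 u)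
        _ ≤ 1 := by simpa using hg'1
    have h6 := mul_le_mul_of_nonneg_left h4 hc0.le
    have h7 := mul_le_mul_of_nonneg_left h5 hc0.le
    linarith
  -- polarization
  obtain ⟨q, hq⟩ : ∃ q : ℝ, q = Real.sqrt (2 * θ) := ⟨_, rfl⟩
  have hq0 : 0 < q := by rw [hq]; exact Real.sqrt_pos.2 (by linarith)
  have hq2 : q ^ 2 = 2 * θ := by rw [hq]; exact Real.sq_sqrt (by linarith)
  let F : V → ℝ := fun v => f' v + 2 * q * f v
  have hF0 : ∀ v, 0 ≤ F v := fun v => by
    have h3 := mul_nonneg hq0.le (hf0 v)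
    have h4 := hf'0 v
    simp only [F]
    linarith
  have hFU : ∀ v, 0 < F v → v ∈ A ∪ A' := by
    intro v hv
    by_contra h3
    rw [mem_union, not_or] at h3
    simp only [F, f, f', h3.1, h3.2, if_false] at hv
    linarith
  have hAU : A ∪ A' ⊆ U := by
    rw [hA, hA']
    exact union_subset (filter_subset _ _) (filter_subset _ _)
  have h3 := quad w hw hs d hr (θ * d) (by nlinarith) F hF0 (by
    intro T hT'
    have h4 : T ⊆ A ∪ A' := fun v hv => hFU v (hT' v hv)
    refine hT T (h4.trans hAU) ?_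
    have h5 := card_le_card h4
    have h6 := card_union_le A A'
    have h7 : (T.card : ℝ) ≤ A.card + A'.card := by exact_mod_cast h5.trans h6
    linarith)
  have h4 : ∑ u, ∑ v, w u v * (F u * F v) ≤ d * q * ∑ v, F v ^ 2 := by
    have hX : 0 ≤ ∑ v, F v ^ 2 := sum_nonneg fun v _ => sq_nonneg _
    refine abs_le_of_sq_le_sq' ?_ (by positivity) |>.2
    refine h3.trans ?_
    rw [mul_pow, mul_pow, hq2]
    refine mul_le_mul_of_nonneg_right ?_ (sq_nonneg _)
    nlinarith [sq_nonneg (θ * d)]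
  have h5 : 4 * q * ∑ u, ∑ v, R u v * (f' u * f v) ≤ ∑ u, ∑ v, R u v * (F u * F v) := by
    have e1 : ∑ u, ∑ v, R u v * (F u * F v) = ∑ u, ∑ v, R u v * (f' u * f' v) +
        2 * q * ∑ u, ∑ v, R u v * (f' u * f v) + 2 * q * ∑ u, ∑ v, R u v * (f u * f' v) +
        4 * q ^ 2 * ∑ u, ∑ v, R u v * (f u * f v) := by
      simp only [mul_sum]
      rw [← sum_add_distrib, ← sum_add_distrib, ← sum_add_distrib]
      refine sum_congr rfl fun u _ => ?_
      rw [← sum_add_distrib, ← sum_add_distrib, ← sum_add_distrib]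
      refine sum_congr rfl fun v _ => ?_
      simp only [F]
      ring
    have e2 : ∑ u, ∑ v, R u v * (f u * f' v) = ∑ u, ∑ v, R u v * (f' u * f v) := by
      rw [sum_comm]
      exact sum_congr rfl fun u _ => sum_congr rfl fun v _ => by rw [hRs v u, mul_comm (f v)]
    have e3 : 0 ≤ ∑ u, ∑ v, R u v * (f' u * f' v) := sum_nonneg fun u _ => sum_nonneg fun v _ =>
      mul_nonneg (hR0 u v) (mul_nonneg (hf'0 u) (hf'0 v))
    have e4 : 0 ≤ ∑ u, ∑ v, R u v * (f u * f v) := sum_nonneg fun u _ => sum_nonneg fun v _ =>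
      mul_nonneg (hR0 u v) (mul_nonneg (hf0 u) (hf0 v))
    have e5 : 0 ≤ 4 * q ^ 2 * ∑ u, ∑ v, R u v * (f u * f v) := by positivity
    rw [e1, e2]
    linarith
  have h6 : ∑ u, ∑ v, R u v * (F u * F v) = (∑ u, ∑ v, w u v * (F u * F v)) / d := by
    rw [sum_div]
    refine sum_congr rfl fun u _ => ?_
    rw [sum_div]
    refine sum_congr rfl fun v _ => ?_
    by_cases huv : u ∈ U ∧ v ∈ U
    · rw [hRw u v huv.1 huv.2]; ring
    · have h7 : F u = 0 ∨ F v = 0 := by
        by_contra h8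
        rw [not_or] at h8
        exact huv ⟨hAU (hFU u (lt_of_le_of_ne (hF0 u) (Ne.symm h8.1))),
          hAU (hFU v (lt_of_le_of_ne (hF0 v) (Ne.symm h8.2)))⟩
      rcases h7 with h7 | h7 <;> rw [h7] <;> simp
  have h7 : ∑ u, ∑ v, R u v * (F u * F v) ≤ q * ∑ v, F v ^ 2 := by
    rw [h6, div_le_iff₀ hd]
    linarith
  have h8 : ∑ v, F v ^ 2 ≤ 2 * ∑ v, g' v ^ 2 + 8 * q ^ 2 * ∑ v, g v ^ 2 := by
    rw [mul_sum, mul_sum, ← sum_add_distrib]
    refine sum_le_sum fun v _ => ?_
    have e1 : f' v ^ 2 ≤ g' v ^ 2 := pow_le_pow_left₀ (hf'0 v) (hfg' v) 2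
    have e2 : f v ^ 2 ≤ g v ^ 2 := pow_le_pow_left₀ (hf0 v) (hfg v) 2
    have e3 := mul_le_mul_of_nonneg_left e2 (sq_nonneg q)
    simp only [F]
    nlinarith [sq_nonneg (f' v - 2 * q * f v)]
  have h9 : ∑ u, ∑ v, R u v * (f' u * f v) ≤ (∑ v, g' v ^ 2) / 2 + 4 * θ * ∑ v, g v ^ 2 := by
    have e1 : 4 * q * ∑ u, ∑ v, R u v * (f' u * f v) ≤
        4 * q * ((∑ v, g' v ^ 2) / 2 + 4 * θ * ∑ v, g v ^ 2) := by
      have e2 := mul_le_mul_of_nonneg_left h8 hq0.le
      have e3 : q * (8 * q ^ 2 * ∑ v, g v ^ 2) = 4 * q * (4 * θ * ∑ v, g v ^ 2) := by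
        rw [hq2]; ring
      linarith
    exact le_of_mul_le_mul_left e1 (by positivity)
  have h10 : 4 * c ≤ (1 - 8 * θ) * (16 / s0) := by
    have e1 : 4 * c = (1 / 2) * (16 / s0) := by rw [hc]; ring
    rw [e1]
    exact mul_le_mul_of_nonneg_right (by linarith) (by positivity)
  linarith

theorem laz_nonneg {w : V → V → ℝ} (hw : ∀ u v, 0 ≤ w u v) {d : ℝ} (hd : 0 < d)
    (u v : V) : 0 ≤ laz w d u v := by
  unfold laz
  have := div_nonneg (hw u v) (by linarith : (0 : ℝ) ≤ 2 * d)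
  split_ifs <;> linarith

theorem laz_symm {w : V → V → ℝ} (hs : ∀ u v, w u v = w v u) (d : ℝ) :
    (laz w d).transpose = laz w d := by
  ext u v
  rw [Matrix.transpose_apply]
  unfold laz
  rw [hs v u]
  congr 1
  exact if_congr eq_comm rfl rfl

theorem laz_row {w : V → V → ℝ} {d : ℝ} (hd : 0 < d)
    (hr : ∀ u, ∑ v, w u v = d) (u : V) : ∑ v, laz w d u v ≤ 1 := by
  unfold laz
  rw [sum_add_distrib, ← sum_div, hr, sum_ite_eq]
  simp only [mem_univ, if_true]
  have : d / (2 * d) = 1 / 2 := by field_simp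
  rw [this]
  norm_num

/-- decay of the lazy walk -/
theorem laz_dec {w : V → V → ℝ} (hw : ∀ u v, 0 ≤ w u v) (hs : ∀ u v, w u v = w v u) {d : ℝ}
    (hd : 0 < d) (hr : ∀ u, ∑ v, w u v = d) (φ s0 : ℝ) (hφ : 0 ≤ φ)
    (hφ1 : φ ≤ 1) (hs0 : 0 < s0)
    (hT : ∀ T : Finset V, (T.card : ℝ) ≤ s0 → eIn w T ≤ (1 - φ) * d * T.card)
    (g : V → ℝ) (hg : ∀ v, 0 ≤ g v) (hg1 : ∑ v, g v ≤ 1) :
    ∑ u, ((laz w d).mulVec g u) ^ 2 ≤
      (1 - φ ^ 2 / 4) * ∑ v, g v ^ 2 + (1 - (1 - φ ^ 2 / 4)) * (2 / s0) := by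
  obtain ⟨c, hc⟩ : ∃ c : ℝ, c = 1 / s0 := ⟨_, rfl⟩
  have hc0 : 0 < c := by rw [hc]; positivity
  have hcs : c * s0 = 1 := by rw [hc]; field_simp
  obtain ⟨x, hx⟩ : ∃ x, x = ∑ v, g v ^ 2 := ⟨_, rfl⟩
  obtain ⟨a, ha⟩ : ∃ a, a = ∑ u, ∑ v, w u v * (g u * g v) := ⟨_, rfl⟩
  -- the walk
  let p : V → ℝ := fun u => (∑ v, w u v * g v) / d
  have hp : ∀ u, (laz w d).mulVec g u = (g u + p u) / 2 := by
    intro u
    simp only [Matrix.mulVec, dotProduct, laz, p, add_mul, sum_add_distrib, ite_mul, zero_mul,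
      sum_ite_eq, mem_univ, if_true]
    have : ∀ v, w u v / (2 * d) * g v = (w u v * g v) / d / 2 := fun v => by
      field_simp
    simp only [this, ← sum_div]
    ring
  have hpsq : ∑ u, p u ^ 2 ≤ x := by
    have h1 : ∀ u, p u ^ 2 ≤ (∑ v, w u v * g v ^ 2) / d := by
      intro u
      have h2 : (∑ v, w u v * g v) ^ 2 ≤ (∑ v, w u v) * ∑ v, w u v * g v ^ 2 := by
        refine sum_sq_le_sum_mul_sum_of_sq_le_mul _ (fun v _ => hw u v)
          (fun v _ => mul_nonneg (hw u v) (sq_nonneg _)) fun v _ => le_of_eq (by ring)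
      rw [hr] at h2
      simp only [p]
      rw [div_pow, div_le_div_iff₀ (by positivity) hd]
      nlinarith
    calc ∑ u, p u ^ 2 ≤ ∑ u, (∑ v, w u v * g v ^ 2) / d := sum_le_sum fun u _ => h1 u
      _ = x := by
        rw [← sum_div, sum_col hs hr (fun v => g v ^ 2), ← hx]
        field_simp
  have hpa : ∑ u, g u * p u = a / d := by
    rw [ha, sum_div]
    refine sum_congr rfl fun u _ => ?_
    simp only [p]
    rw [mul_div_assoc', mul_sum]
    congr 1
    exact sum_congr rfl fun v _ => by ring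
  have h1 : ∑ u, ((laz w d).mulVec g u) ^ 2 ≤ (x + a / d) / 2 := by
    simp only [hp]
    have e : ∀ u, ((g u + p u) / 2) ^ 2 = g u ^ 2 / 4 + g u * p u / 2 + p u ^ 2 / 4 :=
      fun u => by ring
    simp only [e, sum_add_distrib, ← sum_div]
    rw [hpa, ← hx]
    linarith
  -- truncation
  let f : V → ℝ := fun v => max (g v - c) 0
  have hf0 : ∀ v, 0 ≤ f v := fun v => le_max_right _ _
  obtain ⟨X, hX⟩ : ∃ X, X = ∑ v, f v ^ 2 := ⟨_, rfl⟩
  obtain ⟨b, hb⟩ : ∃ b, b = ∑ u, ∑ v, w u v * (f u * f v) := ⟨_, rfl⟩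
  have hX0 : 0 ≤ X := by rw [hX]; exact sum_nonneg fun v _ => sq_nonneg _
  have hen : ∀ (y : V → ℝ), ∑ u, ∑ v, w u v * (y u - y v) ^ 2 =
      2 * (d * ∑ v, y v ^ 2) - 2 * ∑ u, ∑ v, w u v * (y u * y v) := by
    intro y
    have e : ∀ u v, w u v * (y u - y v) ^ 2 = w u v * y u ^ 2 + w u v * y v ^ 2 -
        2 * (w u v * (y u * y v)) := fun u v => by ring
    simp only [e, sum_sub_distrib, sum_add_distrib, ← mul_sum]
    rw [sum_row hr (fun v => y v ^ 2), sum_col hs hr (fun v => y v ^ 2)]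
    ring
  have h2 : 2 * (d * X) - 2 * b ≤ 2 * (d * x) - 2 * a := by
    rw [hX, hb, hx, ha, ← hen f, ← hen g]
    refine sum_le_sum fun u _ => sum_le_sum fun v _ => mul_le_mul_of_nonneg_left ?_ (hw u v)
    refine sq_le_sq' ?_ ?_ |>.trans (le_of_eq (sq_abs _))
    · simp only [f]
      rcases le_total (g u) (g v) with h | h
      · rw [abs_of_nonpos (by linarith)]
        rcases le_total (g u - c) 0 with h3 | h3 <;> rcases le_total (g v - c) 0 with h4 | h4
        · rw [max_eq_right h3, max_eq_right h4]; linarith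
        · rw [max_eq_right h3, max_eq_left h4]; linarith
        · rw [max_eq_left h3, max_eq_right h4]; linarith
        · rw [max_eq_left h3, max_eq_left h4]; linarith
      · rw [abs_of_nonneg (by linarith)]
        have := max_le_max_right (0 : ℝ) (sub_le_sub_right h c)
        linarith
    · simp only [f]
      rcases le_total (g u) (g v) with h | h
      · rw [abs_of_nonpos (by linarith)]
        have := max_le_max_right (0 : ℝ) (sub_le_sub_right h c)
        linarith
      · rw [abs_of_nonneg (by linarith)]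
        rcases le_total (g u - c) 0 with h3 | h3 <;> rcases le_total (g v - c) 0 with h4 | h4
        · rw [max_eq_right h3, max_eq_right h4]; linarith
        · rw [max_eq_right h3, max_eq_left h4]; linarith
        · rw [max_eq_left h3, max_eq_right h4]; linarith
        · rw [max_eq_left h3, max_eq_left h4]; linarith
  have h3 : b ≤ (1 - φ ^ 2 / 2) * d * X := by
    have h4 := quad w hw hs d hr ((1 - φ) * d) (by nlinarith) f hf0 (by
      intro T hT'
      refine hT T ?_
      have h5 : (T.card : ℝ) * c ≤ 1 := by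
        calc (T.card : ℝ) * c = ∑ _v ∈ T, c := by rw [sum_const, nsmul_eq_mul]
          _ ≤ ∑ v ∈ T, g v := by
              refine sum_le_sum fun v hv => ?_
              have := hT' v hv
              simp only [f, lt_max_iff, lt_irrefl, or_false] at this
              linarith
          _ ≤ ∑ v, g v := sum_le_sum_of_subset_of_nonneg (subset_univ _) fun v _ _ => hg v
          _ ≤ 1 := hg1
      have h6 := mul_le_mul_of_nonneg_right h5 hs0.le
      rw [mul_assoc, hcs] at h6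
      linarith)
    rw [← hb, ← hX] at h4
    have h5 : 0 ≤ (1 - φ ^ 2 / 2) * d * X := by
      refine mul_nonneg (mul_nonneg ?_ hd.le) hX0
      nlinarith
    refine abs_le_of_sq_le_sq' ?_ h5 |>.2
    refine h4.trans ?_
    rw [mul_pow, mul_pow]
    refine mul_le_mul_of_nonneg_right ?_ (sq_nonneg _)
    have : (1 - φ) * d * (2 * d - (1 - φ) * d) = (1 - φ ^ 2) * d ^ 2 := by ring
    rw [this]
    refine mul_le_mul_of_nonneg_right ?_ (sq_nonneg _)
    nlinarith [sq_nonneg (φ ^ 2)]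
  have h4 : x - 2 * c ≤ X := by
    have h5 : ∑ v, (g v ^ 2 - 2 * c * g v) ≤ X := by
      rw [hX]
      refine sum_le_sum fun v _ => ?_
      simp only [f]
      rcases le_total (g v - c) 0 with h6 | h6
      · rw [max_eq_right h6]
        have := mul_le_mul_of_nonneg_left (sub_nonpos.1 h6) (hg v)
        nlinarith [hg v]
      · rw [max_eq_left h6]
        nlinarith [sq_nonneg c]
    rw [sum_sub_distrib, ← mul_sum, ← hx] at h5
    have := mul_le_mul_of_nonneg_left hg1 (by linarith : 0 ≤ 2 * c)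
    linarith
  have h5 : a / d ≤ x - φ ^ 2 / 2 * (x - 2 * c) := by
    rw [div_le_iff₀ hd]
    have h6 := mul_le_mul_of_nonneg_left h4 (by positivity : 0 ≤ d * φ ^ 2)
    nlinarith
  have h6 : 2 / s0 = 2 * c := by rw [hc]; ring
  rw [h6, ← hx]
  linarith

end

end Pool.Agent.N587.SE
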