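import Pool.Agent.TH522.UG.Mixed
import Pool.Agent.N587.SE.Kernel

/-!
Small-set expansion: conditioning.
-/

set_option autoImplicit false
set_option linter.unusedSectionVars false
set_option linter.unusedVariables false

namespace Pool.Agent.N587.SE

open Finset Pool.Agent.H647R3.UG Pool.Agent.TH522.UG

section
variable {V : Type} [Fintype V] [DecidableEq V]

/-- `k` levels of the mixed hierarchy, with the constraint that exactly `s` vertices are chosen -/
structure Lev (s : ℝ) (k : ℕ) (L : ((V → Bool) → ℝ) →ₗ[ℝ] ℝ) : Prop where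
  mixed : Mixed k L
  size : ∀ S : Finset V, S.card ≤ k → ∀ g : (V → Bool) → ℝ, Dep S g →
    L (fun x => g x * ((∑ v, if x v = true then (1 : ℝ) else 0) - s)) = 0

/-- the probability that `u` and `v` are separated -/
noncomputable def dis (L : ((V → Bool) → ℝ) →ₗ[ℝ] ℝ) (u v : V) : ℝ :=
  1 - L (sat u v (Equiv.refl Bool))

/-- twice the expected weight of the cut -/
noncomputable def cutE (w : V → V → ℝ) (L : ((V → Bool) → ℝ) →ₗ[ℝ] ℝ) : ℝ :=
  ∑ u, ∑ v, w u v * dis L u v

/-- covariances -/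
noncomputable def cov (L : ((V → Bool) → ℝ) →ₗ[ℝ] ℝ) (u v : V) : ℝ :=
  pr2 L u v true true - pr L u true * pr L v true

namespace Lev

variable {s : ℝ} {k : ℕ} {L : ((V → Bool) → ℝ) →ₗ[ℝ] ℝ}

theorem step (hL : Lev s (k + 1) L) (u : V) (a : Bool) (ha : 0 < pr L u a) :
    Lev s k (cnd L u a) := by
  refine ⟨Mx.step hL.mixed u a ha, fun S hS g hg => ?_⟩
  show L (fun x => ind u a x * (g x * ((∑ v, if x v = true then (1 : ℝ) else 0) - s))) /
    pr L u a = 0
  have h1 := hL.size (insert u S) ((card_insert_le _ _).trans (by omega))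
    (fun x => ind u a x * g x) (Mx.dep_mul (Mx.dep_ind u a _ (mem_insert_self _ _))
      (Mx.dep_mono hg (subset_insert _ _)))
  have h2 : (fun x : V → Bool => ind u a x * (g x *
      ((∑ v, if x v = true then (1 : ℝ) else 0) - s))) =
      fun x => ind u a x * g x * ((∑ v, if x v = true then (1 : ℝ) else 0) - s) := by
    funext x; ring
  rw [h2, h1, zero_div]

theorem mono (hL : Lev s (k + 1) L) : Lev s k L :=
  ⟨Mx.mono hL.mixed, fun S hS => hL.size S (by omega)⟩

theorem down (hL : Lev s k L) : Lev s 0 L := by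
  induction k with
  | zero => exact hL
  | succ k ih => exact ih hL.mono

theorem sum_pr (hL : Lev s k L) : ∑ v, pr L v true = s := by
  have h1 := hL.size ∅ (by simp) (fun _ => 1) (fun _ _ _ => rfl)
  have h2 : (fun x : V → Bool => (1 : ℝ) * ((∑ v, if x v = true then (1 : ℝ) else 0) - s)) =
      (∑ v, ind v true) - s • (fun _ => (1 : ℝ)) := by
    funext x
    rw [Pi.sub_apply, Pi.smul_apply, Finset.sum_apply, one_mul, smul_eq_mul, mul_one]
    rfl
  rw [h2, map_sub, map_sum, map_smul, hL.mixed.one, smul_eq_mul, mul_one] at h1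
  have h3 : ∑ v, pr L v true = ∑ v, L (ind v true) := rfl
  rw [h3]
  linarith

end Lev

section
variable {k : ℕ} {L : ((V → Bool) → ℝ) →ₗ[ℝ] ℝ}

theorem pr_false (hL : Mixed k L) (u : V) : pr L u false = 1 - pr L u true := by
  have := FB.one L hL.one u
  rw [Fintype.sum_bool] at this
  linarith

theorem pr_le_one (hL : Mixed k L) (u : V) : pr L u true ≤ 1 := by
  have h1 := pr_false hL u
  have h2 := Mx.pr_nonneg hL u false
  linarith

theorem vr_eq (hL : Mixed k L) (u : V) :
    vr L u = 2 * (pr L u true * (1 - pr L u true)) := by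
  unfold vr
  rw [Fintype.sum_bool, pr_false hL u]
  ring

theorem vr_nonneg' (hL : Mixed k L) (u : V) : 0 ≤ vr L u := by
  rw [vr_eq hL u]
  have h1 := pr_le_one hL u
  have h2 := Mx.pr_nonneg hL u true
  have := mul_nonneg h2 (sub_nonneg.2 h1)
  linarith

theorem vr_le (hL : Mixed k L) (u : V) : vr L u ≤ 1 / 2 := by
  rw [vr_eq hL u]
  nlinarith [sq_nonneg (pr L u true - 1 / 2)]

theorem laws (hL : Mixed k L) (u v : V) :
    pr2 L u v true false = pr L u true - pr2 L u v true true ∧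
    pr2 L u v false true = pr L v true - pr2 L u v true true ∧
    pr2 L u v false false = 1 - pr L u true - pr L v true + pr2 L u v true true := by
  have h := Mx.law hL u v
  have h1 := h.left true
  have h2 := h.left false
  have h3 := h.right true
  rw [Fintype.sum_bool] at h1 h2 h3
  rw [pr_false hL u] at h2
  refine ⟨by linarith, by linarith, by linarith⟩

theorem dis_eq (hL : Mixed k L) (u v : V) :
    dis L u v = pr L u true + pr L v true - 2 * pr2 L u v true true := by
  unfold dis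
  rw [Mx.sat_eq, Fintype.sum_bool]
  simp only [Equiv.refl_apply]
  rw [(laws hL u v).2.2]
  ring

theorem abs_le_dis (hL : Mixed k L) (u v : V) :
    |pr L u true - pr L v true| ≤ dis L u v := by
  rw [dis_eq hL u v, abs_le]
  have h1 := Mx.pr2_nonneg hL u v true false
  have h2 := Mx.pr2_nonneg hL u v false true
  rw [(laws hL u v).1] at h1
  rw [(laws hL u v).2.1] at h2
  constructor <;> linarith

theorem dis_nonneg (hL : Mixed k L) (u v : V) : 0 ≤ dis L u v :=
  (abs_nonneg _).trans (abs_le_dis hL u v)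

theorem cov_self (hL : Mixed k L) (u : V) : cov L u u = vr L u / 2 := by
  unfold cov
  rw [vr_eq hL u]
  have : pr2 L u u true true = pr L u true := by
    have := congrFun (congrFun (Mx.diag L u) true) true
    rw [this]
    simp [dg]
  rw [this]
  ring

theorem cov_symm (u v : V) : cov L u v = cov L v u := by
  unfold cov
  rw [FB.symm L u v true true]
  ring

/-- the energy of an edge -/
theorem cov_edge (hL : Mixed k L) (u v : V) :
    cov L u u + cov L v v - 2 * cov L u v ≤ dis L u v := by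
  rw [cov_self hL u, cov_self hL v, vr_eq hL u, vr_eq hL v, dis_eq hL u v]
  unfold cov
  nlinarith [sq_nonneg (pr L u true - pr L v true)]

/-- the covariances form a Gram matrix -/
theorem cov_gram (hL : Mixed k L) :
    ∃ (J : Type) (_ : Fintype J) (Y : Matrix V J ℝ), ∀ u v, cov L u v = ∑ j, Y u j * Y v j := by
  have key : ∀ (u v : V), cov L u v =
      L (fun x => (ind u true x - pr L u true) * (ind v true x - pr L v true)) := by
    intro u v
    have h1 : (fun x : V → Bool => (ind u true x - pr L u true) * (ind v true x - pr L v true)) =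
        (fun x => ind u true x * ind v true x) - (pr L v true) • (ind u true)
          - (pr L u true) • (ind v true) + (pr L u true * pr L v true) • (fun _ => (1 : ℝ)) := by
      funext x
      simp only [Pi.add_apply, Pi.sub_apply, Pi.smul_apply, smul_eq_mul]
      ring
    rw [h1, map_add, map_sub, map_sub, map_smul, map_smul, map_smul, hL.one]
    simp only [smul_eq_mul]
    unfold cov
    change _ = pr2 L u v true true - pr L v true * pr L u true - pr L u true * pr L v true + _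
    ring
  obtain ⟨B, hB⟩ := FV.gram (cov L) cov_symm (fun x => by
    have h2 := hL.psd ∅ (by simp) (fun _ => 1) (fun _ _ _ => rfl) (fun _ => zero_le_one)
      (fun v b => x v * ((if b = true then 1 else 0) - pr L v true))
    have e2 : (fun y : V → Bool => (1 : ℝ) * (∑ v, x v * ((if y v = true then 1 else 0)
        - pr L v true)) ^ 2) =
        ∑ i : V, ∑ j : V, (x i * x j) • (fun y : V → Bool =>
          (ind i true y - pr L i true) * (ind j true y - pr L j true)) := by
      funext y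
      simp only [Finset.sum_apply, Pi.smul_apply, smul_eq_mul]
      rw [one_mul, sq, Finset.sum_mul_sum]
      refine Finset.sum_congr rfl fun i _ => Finset.sum_congr rfl fun j _ => ?_
      unfold ind
      ring
    rw [e2] at h2
    simp only [map_sum, map_smul, smul_eq_mul] at h2
    simpa only [key] using h2)
  exact ⟨V, inferInstance, fun u j => B j u, fun u v => hB u v⟩

/-- variance and decrease of the variance -/
theorem vr_dec (hL : Mixed k L) (u v : V) : vr L u * dec L u v = 4 * cov L u v ^ 2 := by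
  obtain ⟨h1, h2, h3⟩ := laws hL u v
  have hp0 := Mx.pr_nonneg hL u true
  have hp1 := pr_le_one hL u
  have e : dec L u v = 2 * (cov L u v ^ 2 / pr L u true) +
      2 * (cov L u v ^ 2 / (1 - pr L u true)) := by
    unfold dec
    simp only [Fintype.sum_bool]
    rw [h1, h2, h3, pr_false hL u, pr_false hL v]
    unfold cov
    ring
  rw [e, vr_eq hL u]
  rcases hp0.eq_or_lt with h0 | h0
  · have h4 : pr2 L u v true true = 0 := by
      have h5 := Mx.pr2_nonneg hL u v true false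
      have h6 := Mx.pr2_nonneg hL u v true true
      linarith
    have h5 : cov L u v = 0 := by unfold cov; rw [h4, ← h0]; ring
    rw [h5]
    ring
  · rcases hp1.eq_or_lt with h7 | h7
    · have h4 : pr2 L u v true true = pr L v true := by
        have h5 := Mx.pr2_nonneg hL u v false true
        have h6 := Mx.pr2_nonneg hL u v false false
        linarith
      have h5 : cov L u v = 0 := by unfold cov; rw [h4, h7]; ring
      rw [h5]
      ring
    · have h8 : (1 - pr L u true) ≠ 0 := by linarith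
      field_simp
      ring

/-- averaging of the cut -/
theorem cutE_avg (w : V → V → ℝ) (hL : Mixed (k + 1) L) (u : V) :
    ∑ a, pr L u a * cutE w (cnd L u a) = cutE w L := by
  have h1 : ∀ v x, ∑ a, pr L u a * dis (cnd L u a) v x = dis L v x := by
    intro v x
    unfold dis
    simp only [mul_sub, mul_one, sum_sub_distrib]
    rw [Mx.avg hL u v x, FB.one L hL.one u]
  calc ∑ a, pr L u a * cutE w (cnd L u a) =
        ∑ a, ∑ v, ∑ x, w v x * (pr L u a * dis (cnd L u a) v x) := by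
        refine sum_congr rfl fun a _ => ?_
        unfold cutE
        rw [mul_sum]
        refine sum_congr rfl fun v _ => ?_
        rw [mul_sum]
        exact sum_congr rfl fun x _ => by ring
    _ = cutE w L := by
        rw [sum_comm]
        unfold cutE
        refine sum_congr rfl fun v _ => ?_
        rw [sum_comm]
        refine sum_congr rfl fun x _ => ?_
        rw [← mul_sum, h1]

/-- the total variance in `U` -/
noncomputable def Phi (U : Finset V) (L : ((V → Bool) → ℝ) →ₗ[ℝ] ℝ) : ℝ := ∑ v ∈ U, vr L v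

theorem Phi_avg (U : Finset V) (hL : Mixed (k + 1) L) (u : V) :
    ∑ a, pr L u a * Phi U (cnd L u a) = Phi U L - ∑ v ∈ U, dec L u v := by
  unfold Phi
  rw [← sum_sub_distrib]
  calc ∑ a, pr L u a * ∑ v ∈ U, vr (cnd L u a) v =
        ∑ v ∈ U, ∑ a, pr L u a * vr (cnd L u a) v := by
        rw [sum_comm]
        exact sum_congr rfl fun a _ => mul_sum _ _ _
    _ = _ := sum_congr rfl fun v _ => by
        have := Mx.fd hL u v
        linarith

theorem Phi_nonneg (U : Finset V) (hL : Mixed k L) : 0 ≤ Phi U L :=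
  sum_nonneg fun v _ => vr_nonneg' hL v

/-- the potential -/
noncomputable def pot (w : V → V → ℝ) (U : Finset V) (s E0 : ℝ)
    (L : ((V → Bool) → ℝ) →ₗ[ℝ] ℝ) : ℝ := Phi U L / (2 * s) + cutE w L / E0

theorem pot_avg (w : V → V → ℝ) (U : Finset V) (s E0 : ℝ) (hL : Mixed (k + 1) L) (u : V) :
    ∑ a, pr L u a * pot w U s E0 (cnd L u a) =
      pot w U s E0 L - (∑ v ∈ U, dec L u v) / (2 * s) := by
  unfold pot
  simp only [mul_add, sum_add_distrib, mul_div_assoc', ← sum_div]
  rw [cutE_avg w hL u, Phi_avg U hL u]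
  ring

/-- one step -/
theorem one_step (w : V → V → ℝ) (U : Finset V) (s E0 Γ : ℝ) (hs : 0 < s)
    (hL : Mixed (k + 1) L) (hΦ : 0 < Phi U L)
    (hΓ : Γ * (Phi U L / 2) ^ 2 ≤ ∑ u ∈ U, ∑ v ∈ U, cov L u v ^ 2) :
    ∃ u a, 0 < pr L u a ∧
      pot w U s E0 (cnd L u a) ≤ pot w U s E0 L - Γ * (Phi U L / 2) / s := by
  have h1 : ∃ u ∈ U, Γ * Phi U L ≤ ∑ v ∈ U, dec L u v := by
    by_contra hcon
    push Not at hcon
    have h2 : ∑ u ∈ U, vr L u * ∑ v ∈ U, dec L u v < ∑ u ∈ U, vr L u * (Γ * Phi U L) := by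
      obtain ⟨u0, hu0, hv0⟩ : ∃ u0 ∈ U, 0 < vr L u0 := by
        by_contra h3
        push Not at h3
        have : Phi U L ≤ 0 := sum_nonpos h3
        linarith
      refine sum_lt_sum (fun u hu => mul_le_mul_of_nonneg_left (hcon u hu).le
        (vr_nonneg' hL u)) ⟨u0, hu0, mul_lt_mul_of_pos_left (hcon u0 hu0) hv0⟩
    have h3 : ∑ u ∈ U, vr L u * ∑ v ∈ U, dec L u v = 4 * ∑ u ∈ U, ∑ v ∈ U, cov L u v ^ 2 := by
      rw [mul_sum]
      refine sum_congr rfl fun u _ => ?_
      rw [mul_sum, mul_sum]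
      exact sum_congr rfl fun v _ => vr_dec hL u v
    have h4 : ∑ u ∈ U, vr L u * (Γ * Phi U L) = Γ * Phi U L ^ 2 := by
      rw [← sum_mul]
      change Phi U L * _ = _
      ring
    rw [h3, h4] at h2
    linarith
  obtain ⟨u, hu, hdec⟩ := h1
  have h5 := pot_avg w U s E0 hL u
  have h6 : ∃ a, 0 < pr L u a ∧ pot w U s E0 (cnd L u a) ≤
      pot w U s E0 L - (∑ v ∈ U, dec L u v) / (2 * s) := by
    by_contra hcon
    push Not at hcon
    obtain ⟨X, hX⟩ : ∃ X, X = pot w U s E0 L - (∑ v ∈ U, dec L u v) / (2 * s) := ⟨_, rfl⟩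
    rw [← hX] at h5 hcon
    have h7 := FB.one L hL.one u
    have h8 : ∑ a, pr L u a * X < ∑ a, pr L u a * pot w U s E0 (cnd L u a) := by
      obtain ⟨a0, ha0⟩ : ∃ a0, 0 < pr L u a0 := by
        by_contra h9
        push Not at h9
        have : ∑ a, pr L u a ≤ 0 := sum_nonpos fun a _ => h9 a
        linarith
      refine sum_lt_sum (fun a _ => ?_) ⟨a0, mem_univ _, mul_lt_mul_of_pos_left (hcon a0 ha0) ha0⟩
      rcases (Mx.pr_nonneg hL u a).eq_or_lt with h9 | h9
      · rw [← h9]; simp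
      · exact (mul_lt_mul_of_pos_left (hcon a h9) h9).le
    rw [← sum_mul, h7, one_mul, h5] at h8
    exact lt_irrefl _ h8
  obtain ⟨a, ha, hle⟩ := h6
  refine ⟨u, a, ha, hle.trans ?_⟩
  have h9 : Γ * (Phi U L / 2) / s ≤ (∑ v ∈ U, dec L u v) / (2 * s) := by
    rw [div_le_div_iff₀ hs (by linarith)]
    have := mul_le_mul_of_nonneg_right hdec hs.le
    linarith
  linarith

end

/-- iteration -/
theorem reach (w : V → V → ℝ) (hw : ∀ u v, 0 ≤ w u v) (U : Finset V) (s E0 c0 Γ : ℝ) (hs : 0 < s)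
    (hE0 : 0 < E0) (hc0 : 0 < c0) (hΓ0 : 0 < Γ)
    (hcor : ∀ (k : ℕ) (L : ((V → Bool) → ℝ) →ₗ[ℝ] ℝ), Lev s k L → cutE w L ≤ 2 * E0 →
      2 * c0 * s < Phi U L → Γ * (Phi U L / 2) ^ 2 ≤ ∑ u ∈ U, ∑ v ∈ U, cov L u v ^ 2) :
    ∀ (k : ℕ) (L : ((V → Bool) → ℝ) →ₗ[ℝ] ℝ), Lev s k L → pot w U s E0 L ≤ k * (Γ * c0) →
      pot w U s E0 L ≤ 2 → ∃ L' : ((V → Bool) → ℝ) →ₗ[ℝ] ℝ, Lev s 0 L' ∧
        Phi U L' ≤ 2 * c0 * s ∧ cutE w L' ≤ 2 * E0 := by
  intro k
  induction k with
  | zero =>
    intro L hL h1 h2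
    refine ⟨L, hL, ?_, ?_⟩
    · have h3 : 0 ≤ cutE w L / E0 := div_nonneg (sum_nonneg fun u _ => sum_nonneg fun v _ =>
        mul_nonneg (hw u v) (dis_nonneg hL.mixed u v)) hE0.le
      unfold pot at h1
      have h4 : Phi U L / (2 * s) ≤ 0 := by
        simp only [Nat.cast_zero, zero_mul] at h1
        linarith
      rw [div_le_iff₀ (by linarith)] at h4
      nlinarith
    · have h3 : 0 ≤ Phi U L / (2 * s) := div_nonneg (Phi_nonneg U hL.mixed) (by linarith)
      unfold pot at h2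
      have h4 : cutE w L / E0 ≤ 2 := by linarith
      rwa [div_le_iff₀ hE0] at h4
  | succ k ih =>
    intro L hL h1 h2
    have hcut : cutE w L ≤ 2 * E0 := by
      have h3 : 0 ≤ Phi U L / (2 * s) := div_nonneg (Phi_nonneg U hL.mixed) (by linarith)
      unfold pot at h2
      have h4 : cutE w L / E0 ≤ 2 := by linarith
      rwa [div_le_iff₀ hE0] at h4
    rcases le_or_gt (Phi U L) (2 * c0 * s) with h3 | h3
    · exact ⟨L, hL.down, h3, hcut⟩
    · have hpos : 0 < Phi U L := lt_trans (by positivity) h3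
      obtain ⟨u, a, ha, hle⟩ := one_step w U s E0 Γ hs hL.mixed hpos (hcor _ L hL hcut h3)
      have h4 : Γ * c0 ≤ Γ * (Phi U L / 2) / s := by
        rw [le_div_iff₀ hs, mul_assoc]
        exact mul_le_mul_of_nonneg_left (by linarith) hΓ0.le
      have h5 : 0 ≤ Γ * c0 := by positivity
      refine ih (cnd L u a) (hL.step u a ha) ?_ (by linarith)
      push_cast at h1
      linarith

/-- the energy inequality for the killed walk -/
theorem energy {w : V → V → ℝ} (hw : ∀ u v, 0 ≤ w u v) (hs : ∀ u v, w u v = w v u) {d : ℝ}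
    (hd : 0 < d) (hr : ∀ u, ∑ v, w u v = d) (U : Finset V) (γ : ℝ)
    (hγ : ∀ u ∈ U, ∑ v ∈ univ \ U, w u v ≤ γ * d) {k : ℕ}
    {L : ((V → Bool) → ℝ) →ₗ[ℝ] ℝ} (hL : Mixed k L) :
    (1 - γ) * (Phi U L / 2) - cutE w L / (2 * d) ≤
      (∑ u ∈ U, ∑ v ∈ U, w u v * cov L u v) / d := by
  have h1 : ∑ u ∈ U, ∑ v ∈ U, w u v * (cov L u u + cov L v v - 2 * cov L u v) ≤ cutE w L := by
    calc ∑ u ∈ U, ∑ v ∈ U, w u v * (cov L u u + cov L v v - 2 * cov L u v) ≤
          ∑ u ∈ U, ∑ v ∈ U, w u v * dis L u v :=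
          sum_le_sum fun u _ => sum_le_sum fun v _ =>
            mul_le_mul_of_nonneg_left (cov_edge hL u v) (hw u v)
      _ ≤ ∑ u ∈ U, ∑ v, w u v * dis L u v := sum_le_sum fun u _ =>
          sum_le_sum_of_subset_of_nonneg (subset_univ _) fun v _ _ =>
            mul_nonneg (hw u v) (dis_nonneg hL u v)
      _ ≤ cutE w L := sum_le_sum_of_subset_of_nonneg (subset_univ _) fun u _ _ =>
          sum_nonneg fun v _ => mul_nonneg (hw u v) (dis_nonneg hL u v)
  have h2 : ∑ u ∈ U, ∑ v ∈ U, w u v * (cov L u u + cov L v v - 2 * cov L u v) =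
      2 * ∑ u ∈ U, (∑ v ∈ U, w u v) * cov L u u -
        2 * ∑ u ∈ U, ∑ v ∈ U, w u v * cov L u v := by
    have e1 : ∑ u ∈ U, ∑ v ∈ U, w u v * cov L v v = ∑ u ∈ U, (∑ v ∈ U, w u v) * cov L u u := by
      rw [sum_comm]
      refine sum_congr rfl fun u _ => ?_
      rw [sum_mul]
      exact sum_congr rfl fun v _ => by rw [hs v u]
    have e2 : ∑ u ∈ U, ∑ v ∈ U, w u v * cov L u u = ∑ u ∈ U, (∑ v ∈ U, w u v) * cov L u u :=
      sum_congr rfl fun u _ => (sum_mul _ _ _).symm
    have e3 : ∀ u v, w u v * (cov L u u + cov L v v - 2 * cov L u v) =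
        w u v * cov L u u + w u v * cov L v v - 2 * (w u v * cov L u v) := fun u v => by ring
    have e6 : ∑ u ∈ U, ∑ v ∈ U, 2 * (w u v * cov L u v) =
        2 * ∑ u ∈ U, ∑ v ∈ U, w u v * cov L u v := by simp only [mul_sum]
    simp only [e3, sum_sub_distrib, sum_add_distrib]
    rw [e1, e2, e6]
    ring
  have hcu : ∀ u, 0 ≤ cov L u u := fun u => by
    rw [cov_self hL u]
    have := vr_nonneg' hL u
    linarith
  -- the weight which leaves `U`
  have h3 : ∑ u ∈ U, (∑ v ∈ univ \ U, w u v) * cov L u u ≤ γ * d * (Phi U L / 2) := by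
    calc ∑ u ∈ U, (∑ v ∈ univ \ U, w u v) * cov L u u ≤
          ∑ u ∈ U, γ * d * cov L u u := sum_le_sum fun u hu =>
          mul_le_mul_of_nonneg_right (hγ u hu) (hcu u)
      _ = γ * d * (Phi U L / 2) := by
          unfold Phi
          rw [← mul_sum, sum_div]
          exact congrArg _ (sum_congr rfl fun u _ => cov_self hL u)
  have h4 : ∑ u ∈ U, (∑ v ∈ U, w u v) * cov L u u + ∑ u ∈ U, (∑ v ∈ univ \ U, w u v) * cov L u u =
      d * (Phi U L / 2) := by
    rw [← sum_add_distrib]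
    unfold Phi
    rw [sum_div, mul_sum]
    refine sum_congr rfl fun u _ => ?_
    rw [← add_mul, add_comm, sum_sdiff (subset_univ U), hr, cov_self hL u]
  rw [h2] at h1
  rw [le_div_iff₀ hd]
  have e5 : ((1 - γ) * (Phi U L / 2) - cutE w L / (2 * d)) * d =
      d * (Phi U L / 2) - cutE w L / 2 - γ * d * (Phi U L / 2) := by
    field_simp
    ring
  rw [e5, ← h4]
  linarith

/-- the numbers -/
theorem numbers (n : ℕ) (hn : 1 ≤ n) (τ ρ B x : ℝ) (hτ : 0 ≤ τ) (hτ1 : τ ≤ 1 / 2) (hρ : 0 < ρ)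
    (hρ1 : ρ < 1) (hB : 0 ≤ B) (hx : 4 * τ / Real.log (1 / ρ) ≤ x) :
    ∃ m : ℕ, Real.exp (-(8 * τ)) * (n : ℝ) ^ (-x) / (1 + n * B) * (n * (ρ ^ (2 * m) + B)) ≤
      ((1 - τ) ^ (2 * m)) ^ 2 := by
  have hn0 : (0 : ℝ) < n := by exact_mod_cast hn
  have hn1 : (1 : ℝ) ≤ n := by exact_mod_cast hn
  have hlog : 0 ≤ Real.log n := Real.log_nonneg hn1
  obtain ⟨l, hl⟩ : ∃ l, l = Real.log (1 / ρ) := ⟨_, rfl⟩
  have hl0 : 0 < l := by rw [hl]; exact Real.log_pos (by rw [lt_div_iff₀ hρ]; linarith)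
  have hρl : ρ = Real.exp (-l) := by
    rw [hl, one_div, Real.log_inv, neg_neg, Real.exp_log hρ]
  rw [← hl] at hx
  obtain ⟨m, hm⟩ : ∃ m : ℕ, m = ⌈Real.log n / (2 * l)⌉₊ := ⟨_, rfl⟩
  have hm1 : Real.log n / (2 * l) ≤ m := by rw [hm]; exact Nat.le_ceil _
  have hm2 : (m : ℝ) ≤ Real.log n / (2 * l) + 1 := by
    rw [hm]; exact (Nat.ceil_lt_add_one (by positivity)).le
  refine ⟨m, ?_⟩
  have h1 : n * (ρ ^ (2 * m) + B) ≤ 1 + n * B := by
    have h2 : ρ ^ (2 * m) ≤ 1 / n := by
      rw [hρl, ← Real.exp_nat_mul]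
      push_cast
      calc Real.exp (2 * m * -l) ≤ Real.exp (-Real.log n) := by
            apply Real.exp_le_exp.2
            rw [div_le_iff₀ (by linarith)] at hm1
            linarith
        _ = 1 / n := by rw [Real.exp_neg, Real.exp_log hn0, one_div]
    have h3 := mul_le_mul_of_nonneg_left h2 hn0.le
    rw [mul_one_div_cancel hn0.ne'] at h3
    linarith
  have h4 : Real.exp (-(2 * τ)) ≤ 1 - τ := by
    rw [Real.exp_neg, inv_le_comm₀ (Real.exp_pos _) (by linarith)]
    have h5 := Real.add_one_le_exp (2 * τ)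
    refine le_trans ?_ h5
    rw [inv_le_iff_one_le_mul₀ (by linarith)]
    nlinarith
  have h5 : Real.exp (-(8 * τ)) * (n : ℝ) ^ (-x) ≤ ((1 - τ) ^ (2 * m)) ^ 2 := by
    have h6 : (Real.exp (-(2 * τ)) ^ (2 * m)) ^ 2 ≤ ((1 - τ) ^ (2 * m)) ^ 2 :=
      pow_le_pow_left₀ (by positivity) (pow_le_pow_left₀ (Real.exp_pos _).le h4 _) 2
    refine le_trans ?_ h6
    rw [← pow_mul, ← Real.exp_nat_mul, Real.rpow_def_of_pos hn0, ← Real.exp_add]
    apply Real.exp_le_exp.2
    push_cast
    have h7 : 8 * τ * m ≤ 8 * τ * (Real.log n / (2 * l) + 1) :=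
      mul_le_mul_of_nonneg_left hm2 (by positivity)
    have h8 : 8 * τ * (Real.log n / (2 * l)) = 4 * τ / l * Real.log n := by
      field_simp
      ring
    have h9 := mul_le_mul_of_nonneg_right hx hlog
    nlinarith
  have h10 : 0 < 1 + n * B := by positivity
  calc Real.exp (-(8 * τ)) * (n : ℝ) ^ (-x) / (1 + n * B) * (n * (ρ ^ (2 * m) + B)) ≤
        Real.exp (-(8 * τ)) * (n : ℝ) ^ (-x) / (1 + n * B) * (1 + n * B) :=
        mul_le_mul_of_nonneg_left h1 (by positivity)
    _ = Real.exp (-(8 * τ)) * (n : ℝ) ^ (-x) := by field_simp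
    _ ≤ _ := h5

/-- the correlations are large -/
theorem corr_cov (R : Matrix V V ℝ) (hR : R.transpose = R) (hpos : ∀ u v, 0 ≤ R u v)
    (hrow : ∀ u, ∑ v, R u v ≤ 1) (ρ B : ℝ) (hρ0 : 0 < ρ) (hρ1 : ρ < 1) (hB : 0 ≤ B)
    (hdec : ∀ g : V → ℝ, (∀ v, 0 ≤ g v) → ∑ v, g v ≤ 1 →
      ∑ u, (R.mulVec g u) ^ 2 ≤ ρ * ∑ v, g v ^ 2 + (1 - ρ) * B)
    (U : Finset V) (hV : 1 ≤ Fintype.card V) {k : ℕ}
    {L : ((V → Bool) → ℝ) →ₗ[ℝ] ℝ} (hL : Mixed k L) (τ x : ℝ) (hτ : 0 ≤ τ) (hτ1 : τ ≤ 1 / 2)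
    (hx : 4 * τ / Real.log (1 / ρ) ≤ x)
    (hen : (1 - τ) * (Phi U L / 2) ≤ ∑ u ∈ U, ∑ v ∈ U, R u v * cov L u v) :
    Real.exp (-(8 * τ)) * (Fintype.card V : ℝ) ^ (-x) / (1 + Fintype.card V * B) *
      (Phi U L / 2) ^ 2 ≤ ∑ u ∈ U, ∑ v ∈ U, cov L u v ^ 2 := by
  obtain ⟨J, _, Y0, hY0⟩ := cov_gram hL
  let Y : Matrix V J ℝ := fun u j => if u ∈ U then Y0 u j else 0
  have hYs : ∀ u v, ∑ j, Y u j * Y v j = if u ∈ U then (if v ∈ U then cov L u v else 0) else 0 := by
    intro u v
    simp only [Y]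
    by_cases hu : u ∈ U
    · by_cases hv : v ∈ U
      · simp only [hu, hv, if_true, hY0]
      · simp [hu, hv]
    · simp [hu]
  have hsum : ∀ F : V → V → ℝ, ∑ u, ∑ v, (if u ∈ U then (if v ∈ U then F u v else 0) else 0) =
      ∑ u ∈ U, ∑ v ∈ U, F u v := by
    intro F
    have e1 : (univ.filter fun u => u ∈ U) = U := by ext; simp
    have e2 : ∀ u, ∑ v, (if u ∈ U then (if v ∈ U then F u v else 0) else 0) =
        if u ∈ U then ∑ v ∈ U, F u v else 0 := by
      intro u
      by_cases hu : u ∈ U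
      · simp only [hu, if_true]
        rw [← sum_filter, e1]
      · simp [hu]
    simp only [e2]
    rw [← sum_filter, e1]
  have hfro : fro Y = Phi U L / 2 := by
    unfold fro Phi
    rw [sum_div]
    have e1 : (univ.filter fun u => u ∈ U) = U := by ext; simp
    have e2 : ∀ u, ∑ j, Y u j ^ 2 = if u ∈ U then vr L u / 2 else 0 := by
      intro u
      have h1 := hYs u u
      have h2 : ∑ j, Y u j ^ 2 = ∑ j, Y u j * Y u j := sum_congr rfl fun j _ => by ring
      rw [h2, h1]
      by_cases hu : u ∈ U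
      · simp only [hu, if_true]
        exact cov_self hL u
      · simp [hu]
    simp only [e2]
    rw [← sum_filter, e1]
  have hinn : inn Y (R * Y) = ∑ u ∈ U, ∑ v ∈ U, R u v * cov L u v := by
    rw [← hsum (fun u v => R u v * cov L u v)]
    unfold inn
    refine sum_congr rfl fun u _ => ?_
    simp only [Matrix.mul_apply, mul_sum]
    rw [sum_comm]
    refine sum_congr rfl fun v _ => ?_
    have h1 := hYs u v
    calc ∑ j, Y u j * (R u v * Y v j) = R u v * ∑ j, Y u j * Y v j := by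
          rw [mul_sum]
          exact sum_congr rfl fun j _ => by ring
      _ = _ := by
          rw [h1]
          split_ifs <;> simp
  obtain ⟨m, hm⟩ := numbers (Fintype.card V) hV τ ρ B x hτ hτ1 hρ0 hρ1 hB hx
  have h1 := corr R hR hpos hrow ρ B hρ0.le hB hdec Y (1 - τ) (by linarith)
    (by rw [hfro, hinn]; exact hen) m
  rw [hfro] at h1
  have h2 : ∑ u, ∑ v, (∑ j, Y u j * Y v j) ^ 2 = ∑ u ∈ U, ∑ v ∈ U, cov L u v ^ 2 := by
    rw [← hsum (fun u v => cov L u v ^ 2)]
    refine sum_congr rfl fun u _ => sum_congr rfl fun v _ => ?_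
    rw [hYs]
    split_ifs <;> simp
  rw [h2, mul_pow] at h1
  obtain ⟨Z, hZ⟩ : ∃ Z, Z = (Fintype.card V : ℝ) * (ρ ^ (2 * m) + B) := ⟨_, rfl⟩
  have hVr : (0 : ℝ) < Fintype.card V := by exact_mod_cast hV
  have hZ0 : 0 < Z := by rw [hZ]; positivity
  rw [← hZ] at h1 hm
  have h3 := mul_le_mul_of_nonneg_right hm (sq_nonneg (Phi U L / 2))
  have h4 := h3.trans h1
  refine le_of_mul_le_mul_left ?_ hZ0
  calc _ = Real.exp (-(8 * τ)) * (Fintype.card V : ℝ) ^ (-x) / (1 + Fintype.card V * B) * Z *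
        (Phi U L / 2) ^ 2 := by ring
    _ ≤ _ := h4

end

end Pool.Agent.N587.SE
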