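import Pool.Agent.N587.SE.Graph

/-!
Small-set expansion: sets of exactly `s` vertices.
-/

set_option autoImplicit false
set_option linter.unusedSectionVars false
set_option linter.unusedVariables false

namespace Pool.Agent.N587.SE

open Finset Pool.Agent.H647R3.UG Pool.Agent.TH522.UG
open scoped Classical

section
variable {V : Type} [Fintype V]

/-- rounding after the conditioning -/
theorem round_T {w : V → V → ℝ} (hw : ∀ u v, 0 ≤ w u v) (hs : ∀ u v, w u v = w v u) {d : ℝ}
    (hd : 0 < d) (hr : ∀ u, ∑ v, w u v = d) (W : Finset V) {k : ℕ} {s : ℝ}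
    {L : ((V → Bool) → ℝ) →ₗ[ℝ] ℝ} (hL : Lev s k L) :
    ∃ T : Finset V, (T.card : ℝ) ≤ s + Phi (univ \ W) L ∧
      d * s - cutE w L / 2 - 2 * d * (W.card + Phi (univ \ W) L) ≤ eIn w T := by
  have hp0 : ∀ v, 0 ≤ pr L v true := fun v => Mx.pr_nonneg hL.mixed v true
  have hp1 : ∀ v, pr L v true ≤ 1 := fun v => pr_le_one hL.mixed v
  obtain ⟨T, hT⟩ : ∃ T : Finset V, T = (univ \ W).filter fun v => 1 / 2 ≤ pr L v true := ⟨_, rfl⟩
  have hTU : T ⊆ univ \ W := by rw [hT]; exact filter_subset _ _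
  refine ⟨T, ?_, ?_⟩
  · have h1 : (T.card : ℝ) = ∑ v ∈ T, (pr L v true + (1 - pr L v true)) := by
      rw [sum_congr rfl fun v _ => (by ring : pr L v true + (1 - pr L v true) = 1)]
      rw [sum_const, nsmul_eq_mul, mul_one]
    rw [h1, sum_add_distrib]
    refine add_le_add ?_ ?_
    · rw [← hL.sum_pr]
      exact sum_le_sum_of_subset_of_nonneg (subset_univ _) fun v _ _ => hp0 v
    · calc ∑ v ∈ T, (1 - pr L v true) ≤ ∑ v ∈ T, vr L v := by
            refine sum_le_sum fun v hv => ?_
            rw [hT, mem_filter] at hv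
            rw [vr_eq hL.mixed v]
            have h2 := hp1 v
            nlinarith [hv.2]
        _ ≤ Phi (univ \ W) L := sum_le_sum_of_subset_of_nonneg hTU fun v _ _ =>
            vr_nonneg' hL.mixed v
  · -- probability outside `T`
    have h1 : ∑ v ∈ univ \ T, pr L v true ≤ W.card + Phi (univ \ W) L := by
      have h2 : (univ \ T : Finset V) ⊆ W ∪ ((univ \ W) \ T) := by
        intro v hv
        rw [mem_sdiff] at hv
        rw [mem_union, mem_sdiff, mem_sdiff]
        by_cases h : v ∈ W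
        · exact Or.inl h
        · exact Or.inr ⟨⟨mem_univ v, h⟩, hv.2⟩
      calc ∑ v ∈ univ \ T, pr L v true ≤ ∑ v ∈ W ∪ ((univ \ W) \ T), pr L v true :=
            sum_le_sum_of_subset_of_nonneg h2 fun v _ _ => hp0 v
        _ ≤ ∑ v ∈ W, pr L v true + ∑ v ∈ (univ \ W) \ T, pr L v true := by
            rw [← sum_union_inter]
            have : 0 ≤ ∑ v ∈ W ∩ ((univ \ W) \ T), pr L v true := sum_nonneg fun v _ => hp0 v
            linarith
        _ ≤ W.card + Phi (univ \ W) L := by
            refine add_le_add ?_ ?_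
            · calc ∑ v ∈ W, pr L v true ≤ ∑ _v ∈ W, (1 : ℝ) := sum_le_sum fun v _ => hp1 v
                _ = _ := by rw [sum_const, nsmul_eq_mul, mul_one]
            · calc ∑ v ∈ (univ \ W) \ T, pr L v true ≤ ∑ v ∈ (univ \ W) \ T, vr L v := by
                    refine sum_le_sum fun v hv => ?_
                    rw [mem_sdiff, hT, mem_filter, not_and] at hv
                    have h3 := not_le.1 (hv.2 hv.1)
                    rw [vr_eq hL.mixed v]
                    have h2 := hp0 v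
                    nlinarith
                _ ≤ _ := sum_le_sum_of_subset_of_nonneg sdiff_subset fun v _ _ =>
                    vr_nonneg' hL.mixed v
    have h2 : ∀ u v, pr2 L u v true true ≤ pr L u true := fun u v => by
      have := Mx.pr2_nonneg hL.mixed u v true false
      rw [(laws hL.mixed u v).1] at this
      linarith
    have h2' : ∀ u v, pr2 L u v true true ≤ pr L v true := fun u v => by
      have := Mx.pr2_nonneg hL.mixed u v false true
      rw [(laws hL.mixed u v).2.1] at this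
      linarith
    have h3 : ∑ u, ∑ v, w u v * pr2 L u v true true = d * s - cutE w L / 2 := by
      have e1 : ∀ u v, w u v * pr2 L u v true true = (w u v * pr L u true + w u v * pr L v true -
          w u v * dis L u v) / 2 := by
        intro u v
        rw [dis_eq hL.mixed u v]
        ring
      simp only [e1, ← sum_div, sum_sub_distrib, sum_add_distrib]
      rw [sum_row hr (fun v => pr L v true), sum_col hs hr (fun v => pr L v true), hL.sum_pr]
      unfold cutE
      ring
    have h4 : ∑ u, ∑ v, w u v * pr2 L u v true true ≤ eIn w T +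
        ∑ u ∈ univ \ T, ∑ v, w u v * pr L u true + ∑ u, ∑ v ∈ univ \ T, w u v * pr L v true := by
      have e1 : ∑ u, ∑ v, w u v * pr2 L u v true true =
          ∑ u ∈ univ \ T, ∑ v, w u v * pr2 L u v true true +
          ∑ u ∈ T, (∑ v ∈ univ \ T, w u v * pr2 L u v true true +
            ∑ v ∈ T, w u v * pr2 L u v true true) := by
        rw [← sum_sdiff (subset_univ T)]
        congr 1
        refine sum_congr rfl fun u _ => ?_
        rw [sum_sdiff (subset_univ T)]
      rw [e1, sum_add_distrib]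
      have e2 : ∑ u ∈ univ \ T, ∑ v, w u v * pr2 L u v true true ≤
          ∑ u ∈ univ \ T, ∑ v, w u v * pr L u true := sum_le_sum fun u _ => sum_le_sum fun v _ =>
        mul_le_mul_of_nonneg_left (h2 u v) (hw u v)
      have e3 : ∑ u ∈ T, ∑ v ∈ univ \ T, w u v * pr2 L u v true true ≤
          ∑ u, ∑ v ∈ univ \ T, w u v * pr L v true := by
        calc ∑ u ∈ T, ∑ v ∈ univ \ T, w u v * pr2 L u v true true ≤
              ∑ u ∈ T, ∑ v ∈ univ \ T, w u v * pr L v true :=
              sum_le_sum fun u _ => sum_le_sum fun v _ =>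
                mul_le_mul_of_nonneg_left (h2' u v) (hw u v)
          _ ≤ _ := sum_le_sum_of_subset_of_nonneg (subset_univ _) fun u _ _ =>
              sum_nonneg fun v _ => mul_nonneg (hw u v) (hp0 v)
      have e4 : ∑ u ∈ T, ∑ v ∈ T, w u v * pr2 L u v true true ≤ eIn w T := by
        unfold eIn
        refine sum_le_sum fun u _ => sum_le_sum fun v _ => ?_
        exact mul_le_of_le_one_right (hw u v) ((h2 u v).trans (hp1 u))
      linarith
    have h5 : ∑ u ∈ univ \ T, ∑ v, w u v * pr L u true = d * ∑ u ∈ univ \ T, pr L u true := by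
      rw [mul_sum]
      refine sum_congr rfl fun u _ => ?_
      rw [← sum_mul, hr]
    have h6 : ∑ u, ∑ v ∈ univ \ T, w u v * pr L v true = d * ∑ u ∈ univ \ T, pr L u true := by
      rw [sum_comm, mul_sum]
      refine sum_congr rfl fun u _ => ?_
      rw [← sum_mul, ← hr u]
      congr 1
      exact sum_congr rfl fun v _ => hs v u
    rw [h3, h5, h6] at h4
    have h7 := mul_le_mul_of_nonneg_left h1 hd.le
    linarith

theorem eIn_insert {w : V → V → ℝ} (hw : ∀ u v, 0 ≤ w u v) (hs : ∀ u v, w u v = w v u)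
    {W : Finset V} {v : V} (hv : v ∉ W) :
    eIn w W + 2 * ∑ x ∈ W, w v x ≤ eIn w (insert v W) := by
  unfold eIn
  rw [sum_insert hv, sum_insert hv]
  have h1 : ∑ u ∈ W, ∑ x ∈ insert v W, w u x = ∑ u ∈ W, w u v + ∑ u ∈ W, ∑ x ∈ W, w u x := by
    rw [← sum_add_distrib]
    exact sum_congr rfl fun u _ => sum_insert hv
  have h2 : ∑ u ∈ W, w u v = ∑ x ∈ W, w v x := sum_congr rfl fun u _ => hs u v
  rw [h1, h2]
  linarith [hw v v]

/-- the exceptional set -/
theorem exists_W {w : V → V → ℝ} (hw : ∀ u v, 0 ≤ w u v) (hws : ∀ u v, w u v = w v u)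
    (s : ℕ) (a b : ℝ) (ha : 0 < a) (hs : 1 ≤ s) (hab : b < a)
    (hsn : s ≤ Fintype.card V)
    (hno : ∀ S : Finset V, S.card = s → eIn w S ≤ b * s) :
    ∃ W : Finset V, (W.card : ℝ) ≤ b / a * s ∧ (∀ T : Finset V, T ⊆ univ \ W →
      (T.card : ℝ) ≤ (1 - b / a) * s → eIn w T ≤ a * T.card) ∧
      ∀ v ∈ univ \ W, ∑ x ∈ W, w v x ≤ a / 2 := by
  obtain ⟨F, hF⟩ : ∃ F : Finset (Finset V),
    F = univ.filter fun X => X.card ≤ s ∧ a * X.card ≤ eIn w X := ⟨_, rfl⟩
  have hne : F.Nonempty := ⟨∅, by rw [hF]; simp [eIn]⟩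
  obtain ⟨W, hWF, hWmax⟩ := F.exists_max_image (fun X => X.card) hne
  have hW := hWF
  rw [hF, mem_filter] at hW
  obtain ⟨-, hWs, hWe⟩ := hW
  have hs0 : (0 : ℝ) < s := by exact_mod_cast hs
  have hWc : (W.card : ℝ) ≤ b / a * s := by
    obtain ⟨S, hWS, hS⟩ := exists_superset_card_eq hWs hsn
    have h1 := eIn_mono hw hWS
    have h2 := hno S hS
    have h3 : a * W.card ≤ b * s := by linarith
    rw [div_mul_eq_mul_div, le_div_iff₀ ha]
    linarith
  refine ⟨W, hWc, fun T hT hTc => ?_, fun v hv => ?_⟩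
  · by_contra hcon
    push Not at hcon
    have hdis : Disjoint W T := by
      rw [disjoint_left]
      intro v hv hvT
      exact (mem_sdiff.1 (hT hvT)).2 hv
    have hTne : 0 < T.card := by
      rw [card_pos, nonempty_iff_ne_empty]
      rintro rfl
      simp [eIn] at hcon
    have h1 := eIn_union hw hdis
    have h2 : (W ∪ T).card = W.card + T.card := card_union_of_disjoint hdis
    have h3 : W ∪ T ∈ F := by
      rw [hF, mem_filter]
      refine ⟨mem_univ _, ?_, ?_⟩
      · rw [h2]
        have : (W.card : ℝ) + T.card ≤ s := by linarith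
        exact_mod_cast this
      · rw [h2]
        push_cast
        linarith
    have h4 := hWmax _ h3
    rw [h2] at h4
    omega
  · by_contra hcon
    push Not at hcon
    have hv' : v ∉ W := (mem_sdiff.1 hv).2
    have h1 := eIn_insert hw hws hv'
    have h2 : (insert v W).card = W.card + 1 := card_insert_of_notMem hv'
    have hlt : W.card < s := by
      have h3 : b / a < 1 := by rw [div_lt_one ha]; exact hab
      have h4 : (W.card : ℝ) < s := by
        refine lt_of_le_of_lt hWc ?_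
        have := mul_lt_mul_of_pos_right h3 hs0
        linarith
      exact_mod_cast h4
    have h3 : insert v W ∈ F := by
      rw [hF, mem_filter]
      refine ⟨mem_univ _, ?_, ?_⟩
      · rw [h2]; omega
      · rw [h2]
        push_cast
        linarith
    have h4 := hWmax _ h3
    rw [h2] at h4
    omega

/-- the main theorem for small `η` -/
theorem exact_small (G : SimpleGraph V) (d s k : ℕ) (η : ℝ) (hG : Regular G d) (hd : 1 ≤ d)
    (hs : 1 ≤ s) (hsn : s ≤ Fintype.card V) (hη : 0 < η) (hη1 : η ≤ 1 / 1024)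
    (hk : 2 ^ 12 * ((Fintype.card V : ℝ) / s *
      (Fintype.card V : ℝ) ^ (2 ^ 11 * η / Real.log (1 / η))) ≤ k)
    (L : ((V → Bool) → ℝ) →ₗ[ℝ] ℝ) (hL : Sol G d s η k L) :
    ∃ S : Finset V, S.card = s ∧ (cut G S : ℝ) < (1 - η) * (d * s) := by
  by_contra hcon
  push Not at hcon
  obtain ⟨hL, hcut⟩ := hL
  have hw := gw_nonneg G
  have hws := gw_symm G
  have hr := gw_row hG
  obtain ⟨w, hwdef⟩ : ∃ w, w = gw G := ⟨_, rfl⟩
  have hcE := cutE_eq G L hL.mixed.one
  have hadd := cut_add G d hG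
  rw [← hwdef] at hw hws hr hcE hadd
  have hd0 : (0 : ℝ) < d := by exact_mod_cast hd
  have hs0 : (0 : ℝ) < s := by exact_mod_cast hs
  have hs1 : (1 : ℝ) ≤ s := by exact_mod_cast hs
  have hn : (s : ℝ) ≤ Fintype.card V := by exact_mod_cast hsn
  obtain ⟨n, hndef⟩ : ∃ n : ℕ, n = Fintype.card V := ⟨_, rfl⟩
  rw [← hndef] at hk hn
  have hn0 : (0 : ℝ) < n := by linarith
  have hno : ∀ S : Finset V, S.card = s → eIn w S ≤ η * d * s := by
    intro S hS
    have h1 := hcon S hS
    have h2 := hadd S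
    rw [hS] at h2
    linarith
  have hηd : 0 < η * d := by positivity
  obtain ⟨W, hWc, hWT, hWv⟩ := exists_W hw hws s (32 * η * d) (η * d) (by positivity) hs
    (by linarith) hsn hno
  have hba : η * d / (32 * η * d) = 1 / 32 := by field_simp
  rw [hba] at hWc hWT
  obtain ⟨U, hU⟩ : ∃ U, U = univ \ W := ⟨_, rfl⟩
  have hUW : univ \ U = W := by rw [hU]; simp
  obtain ⟨s0, hs0def⟩ : ∃ s0 : ℝ, s0 = (1 - 1 / 32) * s := ⟨_, rfl⟩
  have hs00 : 31 / 32 * s ≤ s0 := by
    rw [hs0def]
    linarith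
  have hs0p : 0 < s0 := by linarith
  -- the walk
  have hdec := kil_dec hw hws hd0 hr U (32 * η) s0 (by positivity) (by linarith) hs0p (by
    intro T hT hTc
    rw [hU] at hT
    exact hWT T hT (by rw [← hs0def]; exact hTc))
  obtain ⟨l, hl⟩ : ∃ l, l = Real.log (1 / η) := ⟨_, rfl⟩
  obtain ⟨l', hl'⟩ : ∃ l', l' = Real.log (1 / (8 * (32 * η))) := ⟨_, rfl⟩
  have hl4 : Real.log 4 ≤ l' := by
    rw [hl']
    apply Real.log_le_log (by norm_num)
    rw [le_div_iff₀ (by positivity)]
    linarith
  have hlog4 : (5 : ℝ) / 4 ≤ Real.log 4 := by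
    have h1 : (4 : ℝ) = 2 ^ 2 := by norm_num
    rw [h1, Real.log_pow]
    have := Real.log_two_gt_d9
    push_cast
    linarith
  have hll' : l ≤ 5 * l' := by
    have h1 : l = Real.log 256 + l' := by
      rw [hl, hl', ← Real.log_mul (by norm_num) (by positivity)]
      congr 1
      field_simp
      norm_num
    have h2 : Real.log 256 = 4 * Real.log 4 := by
      have h3 : (256 : ℝ) = 4 ^ 4 := by norm_num
      rw [h3, Real.log_pow]
      push_cast
      ring
    rw [h1, h2]
    linarith
  have hl0 : 0 < l := by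
    rw [hl]
    exact Real.log_pos (by rw [lt_div_iff₀ hη]; linarith)
  rw [← hl] at hk
  obtain ⟨x, hx⟩ : ∃ x, x = 2 ^ 11 * η / l := ⟨_, rfl⟩
  rw [← hx] at hk
  have hxx : 4 * (80 * η) / l' ≤ x := by
    rw [hx, div_le_div_iff₀ (by linarith) hl0]
    have h1 := mul_le_mul_of_nonneg_left hll' (by positivity : 0 ≤ 4 * (80 * η))
    have h2 : 0 ≤ η * l' := mul_nonneg hη.le (by linarith)
    norm_num at h1 ⊢
    linarith
  obtain ⟨Γ, hΓ⟩ : ∃ Γ : ℝ, Γ = Real.exp (-(8 * (80 * η))) * (n : ℝ) ^ (-x) /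
    (1 + n * (16 / s0)) := ⟨_, rfl⟩
  have hΓ0 : 0 < Γ := by
    rw [hΓ]
    have := Real.rpow_pos_of_pos hn0 (-x)
    positivity
  have hcor : ∀ (k : ℕ) (L : ((V → Bool) → ℝ) →ₗ[ℝ] ℝ), Lev (s : ℝ) k L →
      cutE w L ≤ 2 * (2 * η * d * s) → 2 * (1 / 32) * s < Phi U L →
      Γ * (Phi U L / 2) ^ 2 ≤ ∑ u ∈ U, ∑ v ∈ U, cov L u v ^ 2 := by
    intro k L hL h1 h2
    have h3 := energy hw hws hd0 hr U (16 * η) (by
      intro u hu
      rw [hUW]
      rw [hU] at hu
      have := hWv u hu
      linarith) hL.mixed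
    have h4 := corr_cov (kil w d U) (kil_symm hws d U) (kil_nonneg hw hd0 U)
      (kil_row hw hd0 hr U) (8 * (32 * η)) (16 / s0) (by positivity) (by linarith) (by positivity)
      hdec U (by omega) hL.mixed (80 * η) x (by positivity) (by linarith) (by
        rw [← hl']
        exact hxx) (by
        have h5 : ∑ u ∈ U, ∑ v ∈ U, kil w d U u v * cov L u v =
            (∑ u ∈ U, ∑ v ∈ U, w u v * cov L u v) / d := by
          rw [sum_div]
          refine sum_congr rfl fun u hu => ?_
          rw [sum_div]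
          refine sum_congr rfl fun v hv => ?_
          unfold kil
          rw [if_pos ⟨hu, hv⟩]
          ring
        rw [h5]
        refine le_trans ?_ h3
        have h6 : cutE w L / (2 * d) ≤ 2 * η * s := by
          rw [div_le_iff₀ (by linarith)]
          linarith
        nlinarith)
    rw [← hndef, ← hΓ] at h4
    exact h4
  have hpot : pot w U s (2 * η * d * s) L ≤ 2 := by
    unfold pot
    have h1 : Phi U L / (2 * s) ≤ 1 := by
      rw [div_le_one (by linarith)]
      calc Phi U L ≤ ∑ v, vr L v := sum_le_sum_of_subset_of_nonneg (subset_univ _)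
            fun v _ _ => vr_nonneg' hL.mixed v
        _ ≤ ∑ v, 2 * pr L v true := sum_le_sum fun v _ => by
            rw [vr_eq hL.mixed v]
            have := Mx.pr_nonneg hL.mixed v true
            nlinarith
        _ = 2 * s := by rw [← mul_sum, hL.sum_pr]
    have h2 : cutE w L / (2 * η * d * s) ≤ 1 := by
      rw [div_le_one (by positivity), hcE]
      linarith
    linarith
  have hk2 : 2 ≤ k * (Γ * (1 / 32)) := by
    have h1 : 1 + n * (16 / s0) ≤ 18 * (n / s) := by
      have h2 : 1 ≤ (n : ℝ) / s := by rwa [le_div_iff₀ hs0, one_mul]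
      have h3 : (n : ℝ) * (16 / s0) ≤ 17 * (n / s) := by
        rw [mul_div_assoc', mul_div_assoc', div_le_div_iff₀ hs0p hs0]
        nlinarith
      linarith
    have h4 : Real.exp (8 * (80 * η)) ≤ 3 := by
      calc Real.exp (8 * (80 * η)) ≤ Real.exp 1 := Real.exp_le_exp.2 (by linarith)
        _ ≤ 2.7182818286 := Real.exp_one_lt_d9.le
        _ ≤ 3 := by norm_num
    have h5 : (0 : ℝ) < (n : ℝ) ^ x := Real.rpow_pos_of_pos hn0 _
    have h6 : Γ = 1 / (Real.exp (8 * (80 * η)) * (n : ℝ) ^ x * (1 + n * (16 / s0))) := by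
      rw [hΓ, Real.exp_neg, Real.rpow_neg hn0.le]
      field_simp
    obtain ⟨Z, hZ⟩ : ∃ Z, Z = Real.exp (8 * (80 * η)) * (n : ℝ) ^ x *
      (1 + n * (16 / s0)) := ⟨_, rfl⟩
    have hZ0 : 0 < Z := by rw [hZ]; positivity
    have h7 : Z ≤ 54 * ((n : ℝ) / s * (n : ℝ) ^ x) := by
      rw [hZ]
      calc Real.exp (8 * (80 * η)) * (n : ℝ) ^ x * (1 + n * (16 / s0)) ≤
            3 * (n : ℝ) ^ x * (18 * (n / s)) :=
            mul_le_mul (mul_le_mul_of_nonneg_right h4 h5.le) h1 (by positivity) (by positivity)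
        _ = _ := by ring
    rw [h6, ← hZ]
    have h8 : (k : ℝ) * (1 / Z * (1 / 32)) = k / (32 * Z) := by
      field_simp
    rw [h8, le_div_iff₀ (by linarith)]
    have h9 : 0 < (n : ℝ) / s * (n : ℝ) ^ x := by positivity
    norm_num at hk
    linarith
  obtain ⟨L', hL', hPhi, hcut'⟩ := reach w hw U s (2 * η * d * s) (1 / 32) Γ hs0 (by positivity)
    (by norm_num) hΓ0 hcor k L hL (hpot.trans hk2) hpot
  obtain ⟨T, hTc, hTe⟩ := round_T hw hws hd0 hr W hL'
  rw [← hU] at hTc hTe
  have hds : 0 < (d : ℝ) * s := by positivity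
  have h1 : 3 / 4 * (d * s) ≤ eIn w T := by
    refine le_trans ?_ hTe
    have h2 : (W.card : ℝ) + Phi U L' ≤ (1 / 32 + 1 / 16) * s := by linarith
    have h3 := mul_le_mul_of_nonneg_left h2 (by linarith : (0 : ℝ) ≤ 2 * d)
    nlinarith
  have hηds : η * d * s ≤ 1 / 1024 * (d * s) := by
    have := mul_le_mul_of_nonneg_right hη1 hds.le
    linarith
  rcases le_or_gt T.card s with h2 | h2
  · obtain ⟨S, hTS, hS⟩ := exists_superset_card_eq h2 hsn
    have h3 := eIn_mono hw hTS
    have h4 := hno S hS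
    linarith
  · obtain ⟨S, hTS, hS⟩ := exists_subset_card_eq h2.le
    have h3 := eIn_sdiff hw hws hr hTS
    have h4 := hno S hS
    have h5 : ((T \ S).card : ℝ) ≤ s / 16 := by
      have h6 := card_sdiff_add_card_eq_card hTS
      have h7 : ((T \ S).card : ℝ) + s = T.card := by rw [← hS]; exact_mod_cast h6
      linarith
    have h6 := mul_le_mul_of_nonneg_left h5 hd0.le
    linarith

/-- the main theorem -/
theorem exact_all (G : SimpleGraph V) (d s k : ℕ) (η : ℝ) (hG : Regular G d) (hd : 1 ≤ d)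
    (hs : 1 ≤ s) (hsn : s ≤ Fintype.card V) (hη : 0 < η) (hη1 : η < 1 / 2)
    (hk : 2 ^ 12 * ((Fintype.card V : ℝ) / s *
      (Fintype.card V : ℝ) ^ (2 ^ 13 * η / Real.log (1 / η))) ≤ k)
    (L : ((V → Bool) → ℝ) →ₗ[ℝ] ℝ) (hL : Sol G d s η k L) :
    ∃ S : Finset V, S.card = s ∧ (cut G S : ℝ) < (1 - η) * (d * s) := by
  have hs0 : (0 : ℝ) < s := by exact_mod_cast hs
  have hn : (s : ℝ) ≤ Fintype.card V := by exact_mod_cast hsn
  have hn1 : (1 : ℝ) ≤ Fintype.card V := by exact_mod_cast hs.trans hsn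
  have hns : 1 ≤ (Fintype.card V : ℝ) / s := by rwa [le_div_iff₀ hs0, one_mul]
  have hl0 : 0 < Real.log (1 / η) := Real.log_pos (by rw [lt_div_iff₀ hη]; linarith)
  rcases le_or_gt η (1 / 1024) with h | h
  · refine exact_small G d s k η hG hd hs hsn hη h (le_trans ?_ hk) L hL
    have h1 : (Fintype.card V : ℝ) ^ (2 ^ 11 * η / Real.log (1 / η)) ≤
        (Fintype.card V : ℝ) ^ (2 ^ 13 * η / Real.log (1 / η)) :=
      Real.rpow_le_rpow_of_exponent_le hn1 (by gcongr <;> norm_num)
    have h2 := mul_le_mul_of_nonneg_left h1 (by linarith : 0 ≤ (Fintype.card V : ℝ) / s)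
    linarith
  · by_contra hcon
    push Not at hcon
    refine full G d s η (1 - η) k (by linarith) (by linarith) hd hs ?_ hcon L hL
    have h1 : 1 ≤ 2 ^ 13 * η / Real.log (1 / η) := by
      rw [le_div_iff₀ hl0, one_mul]
      calc Real.log (1 / η) ≤ Real.log (2 ^ 10) := by
            apply Real.log_le_log (by positivity)
            rw [div_le_iff₀ hη]
            norm_num
            linarith
        _ = 10 * Real.log 2 := by rw [Real.log_pow]; norm_num
        _ ≤ 2 ^ 13 * η := by
            have := Real.log_two_lt_d9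
            norm_num
            linarith
    have h2 : (Fintype.card V : ℝ) ≤
        (Fintype.card V : ℝ) ^ (2 ^ 13 * η / Real.log (1 / η)) := by
      calc (Fintype.card V : ℝ) = (Fintype.card V : ℝ) ^ (1 : ℝ) := (Real.rpow_one _).symm
        _ ≤ _ := Real.rpow_le_rpow_of_exponent_le hn1 h1
    have h3 : (Fintype.card V : ℝ) ≤ k := by
      refine le_trans ?_ hk
      have h4 : (Fintype.card V : ℝ) ≤ (Fintype.card V : ℝ) / s *
          (Fintype.card V : ℝ) ^ (2 ^ 13 * η / Real.log (1 / η)) := by nlinarith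
      norm_num at h4 ⊢
      nlinarith
    exact_mod_cast h3

end

end Pool.Agent.N587.SE
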