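import Pool.Agent.N587.SE.Cond

/-!
Small-set expansion: graphs, and the case of full level.
-/

set_option autoImplicit false
set_option linter.unusedSectionVars false
set_option linter.unusedVariables false

namespace Pool.Agent.N587.SE

open Finset Pool.Agent.H647R3.UG Pool.Agent.TH522.UG
open scoped Classical

section
variable {V : Type} [Fintype V]

/-- the number of edges of `G` with exactly one endpoint in `S` -/
noncomputable def cut (G : SimpleGraph V) (S : Finset V) : ℕ :=
  (univ.filter fun p : V × V => p.1 ∈ S ∧ p.2 ∉ S ∧ G.Adj p.1 p.2).card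

/-- `G` is `d`-regular -/
def Regular (G : SimpleGraph V) (d : ℕ) : Prop :=
  ∀ u, (univ.filter fun v => G.Adj u v).card = d

/-- A solution of level `k` of the mixed hierarchy for the question whether some set of exactly `s`
vertices of the `d`-regular graph `G` has expansion at most `η`: a linear functional `L` on the
functions of a set of vertices `x` which satisfies the constraints `Lev s k` of the hierarchy, and
for which the number of edges which leave the set is at most `η d s`. -/
def Sol (G : SimpleGraph V) (d s : ℕ) (η : ℝ) (k : ℕ)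
    (L : ((V → Bool) → ℝ) →ₗ[ℝ] ℝ) : Prop :=
  Lev (s : ℝ) k L ∧ L (fun x => (cut G (univ.filter fun v => x v = true) : ℝ)) ≤ η * (d * s)

/-- the weights of a graph -/
noncomputable def gw (G : SimpleGraph V) (u v : V) : ℝ := if G.Adj u v then 1 else 0

theorem gw_nonneg (G : SimpleGraph V) (u v : V) : 0 ≤ gw G u v := by
  unfold gw; split_ifs <;> norm_num

theorem gw_symm (G : SimpleGraph V) (u v : V) : gw G u v = gw G v u := by
  unfold gw; rw [G.adj_comm]

theorem gw_row {G : SimpleGraph V} {d : ℕ} (hG : Regular G d) (u : V) : ∑ v, gw G u v = d := by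
  unfold gw
  rw [← hG u, card_filter]
  push_cast
  rfl

theorem cut_eq (G : SimpleGraph V) (S : Finset V) :
    (cut G S : ℝ) = ∑ u ∈ S, ∑ v ∈ univ \ S, gw G u v := by
  unfold cut gw
  rw [card_filter]
  push_cast
  rw [← univ_product_univ, sum_product, ← sum_subset (subset_univ S)]
  · refine sum_congr rfl fun u hu => ?_
    rw [← sum_subset (subset_univ (univ \ S))]
    · refine sum_congr rfl fun v hv => ?_
      rw [mem_sdiff] at hv
      simp only [hu, hv.2, true_and, not_false_eq_true]
    · intro v _ hv
      rw [mem_sdiff, not_and, not_not] at hv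
      simp [hv (mem_univ v)]
  · intro u _ hu
    refine sum_eq_zero fun v _ => ?_
    simp [hu]

theorem cut_add (G : SimpleGraph V) (d : ℕ) (hG : Regular G d) (S : Finset V) :
    eIn (gw G) S + cut G S = d * S.card := by
  rw [cut_eq]
  unfold eIn
  rw [← sum_add_distrib]
  calc ∑ u ∈ S, (∑ v ∈ S, gw G u v + ∑ v ∈ univ \ S, gw G u v) = ∑ _u ∈ S, (d : ℝ) := by
        refine sum_congr rfl fun u _ => ?_
        rw [add_comm, sum_sdiff (subset_univ S), gw_row hG]
    _ = _ := by rw [sum_const, nsmul_eq_mul, mul_comm]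

/-- the expected cut -/
theorem cutE_eq (G : SimpleGraph V) (L : ((V → Bool) → ℝ) →ₗ[ℝ] ℝ) (h1 : L (fun _ => 1) = 1) :
    cutE (gw G) L = 2 * L (fun x => (cut G (univ.filter fun v => x v = true) : ℝ)) := by
  have e1 : (fun x : V → Bool => (cut G (univ.filter fun v => x v = true) : ℝ)) =
      ∑ u, ∑ v, gw G u v • (fun x : V → Bool => ind u true x * ind v false x) := by
    funext x
    rw [cut_eq]
    simp only [Finset.sum_apply, Pi.smul_apply, smul_eq_mul]
    rw [← sum_subset (subset_univ (univ.filter fun v => x v = true))]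
    · refine sum_congr rfl fun u hu => ?_
      rw [mem_filter] at hu
      rw [← sum_subset (subset_univ (univ \ univ.filter fun v => x v = true))]
      · refine sum_congr rfl fun v hv => ?_
        rw [mem_sdiff, mem_filter, not_and] at hv
        have h2 : x v = false := by
          have := hv.2 (mem_univ v)
          simpa using this
        simp [ind, hu.2, h2]
      · intro v _ hv
        rw [mem_sdiff, mem_filter, not_and, not_not] at hv
        have := (hv (mem_univ v)).2
        simp [ind, this]
    · intro u _ hu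
      rw [mem_filter, not_and] at hu
      have := hu (mem_univ u)
      refine sum_eq_zero fun v _ => ?_
      simp [ind, this]
  have e2 : ∀ u v, dis L u v = L (fun x : V → Bool => ind u true x * ind v false x) +
      L (fun x : V → Bool => ind v true x * ind u false x) := by
    intro u v
    unfold dis
    rw [← map_add]
    have : (fun x : V → Bool => ind u true x * ind v false x) +
        (fun x : V → Bool => ind v true x * ind u false x) =
        (fun _ => (1 : ℝ)) - sat u v (Equiv.refl Bool) := by
      funext x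
      rw [Pi.add_apply, Pi.sub_apply]
      unfold sat ind
      rw [Equiv.refl_apply]
      cases x u <;> cases x v <;> simp
    rw [this, map_sub, h1]
  rw [e1]
  simp only [map_sum, map_smul, smul_eq_mul]
  unfold cutE
  simp only [e2, mul_add, sum_add_distrib]
  have e3 : ∑ u, ∑ v, gw G u v * L (fun x : V → Bool => ind v true x * ind u false x) =
      ∑ u, ∑ v, gw G u v * L (fun x : V → Bool => ind u true x * ind v false x) := by
    rw [sum_comm]
    exact sum_congr rfl fun u _ => sum_congr rfl fun v _ => by rw [gw_symm]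
  rw [e3]
  ring

/-- a set of `s` vertices is a solution of every level -/
theorem sol_of_set (G : SimpleGraph V) (d s : ℕ) (η : ℝ) (k : ℕ) (S : Finset V) (hS : S.card = s)
    (hcut : (cut G S : ℝ) ≤ η * (d * s)) : ∃ L, Sol G d s η k L := by
  obtain ⟨x0, hx0⟩ : ∃ x0 : V → Bool, ∀ v, x0 v = true ↔ v ∈ S :=
    ⟨fun v => decide (v ∈ S), fun v => by simp⟩
  have hf : (univ.filter fun v => x0 v = true) = S := by
    ext v
    rw [mem_filter, hx0]
    simp
  refine ⟨LinearMap.proj x0, ⟨⟨rfl, fun _ _ f _ hf => hf x0, fun _ _ g _ hg c => ?_⟩,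
    fun _ _ g _ => ?_⟩, ?_⟩
  · exact mul_nonneg (hg x0) (sq_nonneg _)
  · show g x0 * ((∑ v, if x0 v = true then (1 : ℝ) else 0) - s) = 0
    rw [← sum_filter, hf, sum_const, nsmul_eq_mul, hS]
    ring
  · show (cut G (univ.filter fun v => x0 v = true) : ℝ) ≤ _
    rw [hf]
    exact hcut

/-- full level: if there is a solution then there is a set -/
theorem full (G : SimpleGraph V) (d s : ℕ) (η ζ : ℝ) (k : ℕ) (hη : η < ζ) (hζ : ζ ≤ 1)
    (hd : 1 ≤ d) (hs : 1 ≤ s) (hk : Fintype.card V ≤ k)
    (hno : ∀ S : Finset V, S.card = s → ζ * (d * s) ≤ cut G S)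
    (L : ((V → Bool) → ℝ) →ₗ[ℝ] ℝ) (hL : Sol G d s η k L) : False := by
  obtain ⟨hL, hcut⟩ := hL
  have hds : (0 : ℝ) < d * s := by
    have h1 : (1 : ℝ) ≤ d := by exact_mod_cast hd
    have h2 : (1 : ℝ) ≤ s := by exact_mod_cast hs
    positivity
  let z : (V → Bool) → ℝ := fun x => (∑ v, if x v = true then (1 : ℝ) else 0) - s
  let c : (V → Bool) → ℝ := fun x => (cut G (univ.filter fun v => x v = true) : ℝ)
  have hall : ∀ f : (V → Bool) → ℝ, Dep univ f := by
    intro f x y h
    have : x = y := funext fun v => h v (mem_univ v)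
    rw [this]
  have h1 := hL.mixed.junta univ (by rw [Finset.card_univ]; omega)
    (fun x => c x - ζ * (d * s) + d * s * (z x * z x)) (hall _) (fun x => by
      by_cases hx : (univ.filter fun v => x v = true).card = s
      · have h2 := hno _ hx
        have h3 : 0 ≤ d * s * (z x * z x) := mul_nonneg hds.le (mul_self_nonneg _)
        simp only [c]
        linarith
      · have h2 : z x = ((univ.filter fun v => x v = true).card : ℤ) - (s : ℤ) := by
          simp only [z]
          rw [← sum_filter, sum_const, nsmul_eq_mul, mul_one]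
          push_cast
          rfl
        have h3 : (1 : ℝ) ≤ z x * z x := by
          rw [h2]
          have h4 : (((univ.filter fun v => x v = true).card : ℤ) - (s : ℤ)) ≠ 0 := by
            intro h5
            apply hx
            omega
          have h5 : 1 ≤ |((univ.filter fun v => x v = true).card : ℤ) - (s : ℤ)| :=
            Int.one_le_abs h4
          have h6 : (1 : ℤ) ≤ (((univ.filter fun v => x v = true).card : ℤ) - (s : ℤ)) *
              (((univ.filter fun v => x v = true).card : ℤ) - (s : ℤ)) := by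
            rw [← abs_mul_abs_self]
            nlinarith
          exact_mod_cast h6
        have h7 := mul_le_mul_of_nonneg_left h3 hds.le
        have h8 : ζ * (d * s) ≤ d * s := by nlinarith
        have h9 : (0 : ℝ) ≤ c x := by simp only [c]; positivity
        linarith)
  have h2 : (fun x => c x - ζ * (d * s) + d * s * (z x * z x)) =
      c - (ζ * (d * s)) • (fun _ => (1 : ℝ)) + ((d : ℝ) * s) • (fun x => z x * z x) := by
    funext x
    simp only [Pi.add_apply, Pi.sub_apply, Pi.smul_apply, smul_eq_mul, mul_one]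
  have h3 : L (fun x => z x * z x) = 0 :=
    hL.size univ (by rw [Finset.card_univ]; exact hk) z (hall _)
  rw [h2, map_add, map_sub, map_smul, map_smul, h3, hL.mixed.one, smul_eq_mul, smul_eq_mul,
    mul_one, mul_zero, add_zero] at h1
  have h4 : L c ≤ η * (d * s) := hcut
  nlinarith

theorem eIn_mono {w : V → V → ℝ} (hw : ∀ u v, 0 ≤ w u v) {S T : Finset V} (h : S ⊆ T) :
    eIn w S ≤ eIn w T := by
  unfold eIn
  calc ∑ u ∈ S, ∑ v ∈ S, w u v ≤ ∑ u ∈ S, ∑ v ∈ T, w u v := sum_le_sum fun u _ =>
        sum_le_sum_of_subset_of_nonneg h fun v _ _ => hw u v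
    _ ≤ _ := sum_le_sum_of_subset_of_nonneg h fun u _ _ => sum_nonneg fun v _ => hw u v

theorem eIn_union {w : V → V → ℝ} (hw : ∀ u v, 0 ≤ w u v) {S T : Finset V} (h : Disjoint S T) :
    eIn w S + eIn w T ≤ eIn w (S ∪ T) := by
  unfold eIn
  rw [sum_union h]
  refine add_le_add (sum_le_sum fun u _ => ?_) (sum_le_sum fun u _ => ?_)
  · exact sum_le_sum_of_subset_of_nonneg subset_union_left fun v _ _ => hw u v
  · exact sum_le_sum_of_subset_of_nonneg subset_union_right fun v _ _ => hw u v

theorem eIn_sdiff {w : V → V → ℝ} (hw : ∀ u v, 0 ≤ w u v) (hs : ∀ u v, w u v = w v u) {d : ℝ}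
    (hr : ∀ u, ∑ v, w u v = d) {S T : Finset V} (h : S ⊆ T) :
    eIn w T ≤ eIn w S + 2 * (d * (T \ S).card) := by
  have h1 : eIn w T = eIn w S + ∑ u ∈ S, ∑ v ∈ T \ S, w u v + ∑ u ∈ T \ S, ∑ v ∈ T, w u v := by
    unfold eIn
    rw [← sum_sdiff h (f := fun u => ∑ v ∈ T, w u v)]
    have : ∑ u ∈ S, ∑ v ∈ T, w u v = ∑ u ∈ S, ∑ v ∈ S, w u v + ∑ u ∈ S, ∑ v ∈ T \ S, w u v := by
      rw [← sum_add_distrib]
      refine sum_congr rfl fun u _ => ?_
      rw [add_comm, sum_sdiff h]
    rw [this]
    ring
  have h2 : ∑ u ∈ T \ S, ∑ v ∈ T, w u v ≤ d * (T \ S).card := by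
    calc ∑ u ∈ T \ S, ∑ v ∈ T, w u v ≤ ∑ u ∈ T \ S, ∑ v, w u v := sum_le_sum fun u _ =>
          sum_le_sum_of_subset_of_nonneg (subset_univ _) fun v _ _ => hw u v
      _ = _ := by simp only [hr, sum_const, nsmul_eq_mul]; ring
  have h3 : ∑ u ∈ S, ∑ v ∈ T \ S, w u v ≤ d * (T \ S).card := by
    rw [sum_comm]
    calc ∑ v ∈ T \ S, ∑ u ∈ S, w u v ≤ ∑ v ∈ T \ S, ∑ u, w v u := by
          refine sum_le_sum fun v _ => ?_
          calc ∑ u ∈ S, w u v = ∑ u ∈ S, w v u := sum_congr rfl fun u _ => hs u v
            _ ≤ _ := sum_le_sum_of_subset_of_nonneg (subset_univ _) fun u _ _ => hw v u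
      _ = _ := by simp only [hr, sum_const, nsmul_eq_mul]; ring
  rw [h1]
  linarith

end

end Pool.Agent.N587.SE
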