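import Pool.Agent.N587.SE.Trade
import Pool.Agent.N625.US.Red

/-!
Small-set expansion: local reductions.
-/

set_option autoImplicit false
set_option linter.unusedSectionVars false
set_option linter.unusedVariables false

namespace Pool.Agent.N587.SE

open Finset Pool.Agent.H647R3.UG Pool.Agent.TH522.UG Pool.Agent.W888.GX Pool.Agent.TH700.UG
open scoped Classical

/-- The formula `F` over `n` variables is represented with locality `D` in the `d`-regular graph `G`,
for sets of `s` vertices with expansion at most `ε`: every assignment `x` of the variables has an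
honest set `{v | enc x v}` of vertices, the question whether a vertex belongs to it depends on at
most `D` of the variables, and

`|{v | enc x v}| = s - ∑ p, h p x`, `cut G {v | enc x v} = ε d s - ∑ p, g p x`,

where the terms `g p x` and `h p x` depend on a set `T p` of at most `D` variables, and `0 ≤ g p x`
and `h p x = 0` if `x` satisfies the clauses of `F` inside `T p`. So if `x` satisfies `F` then the
honest set has `s` vertices and expansion at most `ε`, and this can be checked locally. -/
def Encodes {n k : ℕ} {I V : Type} [Fintype V] (F : I → Clause k n) (D : ℕ)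
    (G : SimpleGraph V) (d s : ℕ) (ε : ℝ) : Prop :=
  ∃ (enc : (Fin n → ZMod 2) → V → Bool) (P : Type) (_ : Fintype P) (T : P → Finset (Fin n))
    (g h : P → (Fin n → ZMod 2) → ℝ),
    (∀ v, ∃ S : Finset (Fin n), S.card ≤ D ∧ Reads (fun x => enc x v) S) ∧
    (∀ p, (T p).card ≤ D ∧ Reads (g p) (T p) ∧ Reads (h p) (T p) ∧
      ∀ x, SatOn F (T p) x → 0 ≤ g p x ∧ h p x = 0) ∧
    ∀ x, ((univ.filter fun v => enc x v = true).card : ℝ) = s - ∑ p, h p x ∧
      (cut G (univ.filter fun v => enc x v = true) : ℝ) = ε * (d * s) - ∑ p, g p x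

/-- composition of a pseudo-expectation with a representation -/
theorem sol_comp {n k D D0 : ℕ} {I V : Type} [Fintype V]
    {L : ((Fin n → ZMod 2) → ℝ) →ₗ[ℝ] ℝ} (hL : IsPseudoExpectation D0 L) {kk : ℕ}
    (F : I → Clause kk n)
    (hF : ∀ i, ∀ u : (Fin n → ZMod 2) → ℝ, (∀ x, (Satisfies x (F i) → u x = 0) ∧
      (¬ Satisfies x (F i) → u x = 1)) → L u = 0)
    (G : SimpleGraph V) (d s : ℕ) (ε : ℝ) (hR : Encodes F D G d s ε) (hk : (k + 2) * D ≤ D0) :
    ∃ L' : ((V → Bool) → ℝ) →ₗ[ℝ] ℝ, Sol G d s ε k L' := by
  obtain ⟨enc, P, _, T, g, h, henc, hT, hx⟩ := hR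
  have hmix := Pool.Agent.N625.US.mixed_comp1 hL enc henc hk
  refine ⟨L.comp (LinearMap.funLeft ℝ ℝ enc), ⟨hmix, fun W hW q hq => ?_⟩, ?_⟩
  · choose S hS hRd using henc
    have hval : ∀ z : Fin n → ZMod 2, (∑ v, if enc z v = true then (1 : ℝ) else 0) - s =
        - ∑ p, h p z := by
      intro z
      have h1 := (hx z).1
      have h2 : ((univ.filter fun v => enc z v = true).card : ℝ) =
          ∑ v, if enc z v = true then (1 : ℝ) else 0 := by
        rw [card_filter]
        push_cast
        rfl
      rw [← h2, h1]
      ring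
    have h1 : (L.comp (LinearMap.funLeft ℝ ℝ enc))
        (fun x => q x * ((∑ v, if x v = true then (1 : ℝ) else 0) - s)) =
        L (∑ p, fun z => -(q (enc z) * h p z)) := by
      rw [LinearMap.comp_apply]
      congr 1
      funext z
      rw [LinearMap.funLeft_apply, Finset.sum_apply]
      show q (enc z) * ((∑ v, if enc z v = true then (1 : ℝ) else 0) - s) = _
      rw [hval, sum_neg_distrib, ← mul_sum]
      ring
    rw [h1, map_sum]
    refine sum_eq_zero fun p _ => ?_
    have hread : Reads (fun z => q (enc z)) (W.biUnion S) := by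
      intro x y hxy
      refine hq _ _ fun v hv => ?_
      exact hRd v x y fun i hi => hxy i (mem_biUnion.2 ⟨v, hv, hi⟩)
    have hcard : (T p ∪ W.biUnion S).card ≤ D0 := by
      have h2 : (W.biUnion S).card ≤ W.card * D :=
        card_biUnion_le.trans ((Finset.sum_le_card_nsmul W _ D fun v _ => hS v).trans
          (by rw [smul_eq_mul]))
      have h3 := card_union_le (T p) (W.biUnion S)
      have h4 := (hT p).1
      have h5 := Nat.mul_le_mul_right D hW
      have h6 : (k + 2) * D = k * D + 2 * D := by ring
      omega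
    have hzero : ∀ z, SatOn F (T p ∪ W.biUnion S) z → q (enc z) * h p z = 0 := by
      intro z hz
      have h2 : SatOn F (T p) z := fun i hi => hz i fun l => mem_union_left _ (hi l)
      rw [((hT p).2.2.2 z h2).2, mul_zero]
    have hreads : ∀ c : ℝ, Reads (fun z => c * (q (enc z) * h p z)) (T p ∪ W.biUnion S) := by
      intro c x y hxy
      have h2 := hread x y fun i hi => hxy i (mem_union_right _ hi)
      have h3 := (hT p).2.2.1 x y fun i hi => hxy i (mem_union_left _ hi)
      simp only [] at h2
      show c * (q (enc x) * h p x) = c * (q (enc y) * h p y)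
      rw [h2, h3]
    have h7 := pe_local hL F hF _ hcard _ (hreads 1) fun z hz => by
      rw [hzero z hz]; simp
    have h8 := pe_local hL F hF _ hcard _ (hreads (-1)) fun z hz => by
      rw [hzero z hz]; simp
    have e1 : (fun z => (1 : ℝ) * (q (enc z) * h p z)) = -(fun z => -(q (enc z) * h p z)) := by
      funext z
      rw [Pi.neg_apply]
      ring
    have e2 : (fun z => (-1 : ℝ) * (q (enc z) * h p z)) = (fun z => -(q (enc z) * h p z)) := by
      funext z
      ring
    rw [e1, map_neg] at h7
    rw [e2] at h8
    linarith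
  · have h1 : (L.comp (LinearMap.funLeft ℝ ℝ enc))
        (fun x => (cut G (univ.filter fun v => x v = true) : ℝ)) =
        L ((ε * (d * s)) • (fun _ => (1 : ℝ)) - ∑ p, g p) := by
      rw [LinearMap.comp_apply]
      congr 1
      funext z
      rw [LinearMap.funLeft_apply, Pi.sub_apply, Pi.smul_apply, Finset.sum_apply, smul_eq_mul,
        mul_one]
      exact (hx z).2
    rw [h1, map_sub, map_smul, hL.1, map_sum, smul_eq_mul, mul_one]
    have h2 : 0 ≤ ∑ p, L (g p) := sum_nonneg fun p _ =>
      pe_local hL F hF (T p) ((hT p).1.trans (by nlinarith)) (g p) (hT p).2.1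
        fun x hx => ((hT p).2.2.2 x hx).1
    linarith

end Pool.Agent.N587.SE
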