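import Pool.Agent.N587.SE.Exact

/-!
Small-set expansion: the trade-off.
-/

set_option autoImplicit false
set_option linter.unusedSectionVars false
set_option linter.unusedVariables false

namespace Pool.Agent.N587.SE

open Finset Pool.Agent.H647R3.UG Pool.Agent.TH522.UG
open scoped Classical

section
variable {V : Type} [Fintype V]

/-- no almost integral solution -/
theorem no_integral {w : V → V → ℝ} (hw : ∀ u v, 0 ≤ w u v) (hs : ∀ u v, w u v = w v u) {d : ℝ}
    (hd : 0 < d) (hr : ∀ u, ∑ v, w u v = d) {k : ℕ} {s : ℝ} (hs0 : 0 < s) (ε φ ξ : ℝ)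
    (hφ : 0 < φ) (hεφ : 32 * ε ≤ φ) (hξ : 0 < ξ) (hξ1 : ξ ≤ 1)
    (hexp : ∀ T : Finset V, (T.card : ℝ) ≤ (1 + ξ) * s → eIn w T ≤ (1 - φ) * d * T.card)
    {L : ((V → Bool) → ℝ) →ₗ[ℝ] ℝ} (hL : Lev s k L) (hΦ : Phi univ L ≤ ξ / 4 * s)
    (hcut : cutE w L ≤ 4 * ε * d * s) : False := by
  have hp0 : ∀ v, 0 ≤ pr L v true := fun v => Mx.pr_nonneg hL.mixed v true
  have hp1 : ∀ v, pr L v true ≤ 1 := fun v => pr_le_one hL.mixed v
  let h : V → ℝ := fun v => min (max (pr L v true - 1 / 2) 0) (1 / 4)
  have hh0 : ∀ v, 0 ≤ h v := fun v => le_min (le_max_right _ _) (by norm_num)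
  have hlay := layer w ((1 - φ) * d) _ h hh0 le_rfl (by
    intro T hT
    apply hexp
    have h1 : (T.card : ℝ) = ∑ v ∈ T, (pr L v true + (1 - pr L v true)) := by
      rw [sum_congr rfl fun v _ => (by ring : pr L v true + (1 - pr L v true) = 1)]
      rw [sum_const, nsmul_eq_mul, mul_one]
    have h2 : ∑ v ∈ T, pr L v true ≤ s := by
      rw [← hL.sum_pr]
      exact sum_le_sum_of_subset_of_nonneg (subset_univ _) fun v _ _ => hp0 v
    have h3 : ∑ v ∈ T, (1 - pr L v true) ≤ Phi univ L := by
      calc ∑ v ∈ T, (1 - pr L v true) ≤ ∑ v ∈ T, vr L v := by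
            refine sum_le_sum fun v hv => ?_
            have h4 := hT v hv
            simp only [h, lt_min_iff, lt_max_iff, lt_irrefl, or_false] at h4
            rw [vr_eq hL.mixed v]
            have h2 := hp1 v
            nlinarith [h4.1]
        _ ≤ Phi univ L := sum_le_sum_of_subset_of_nonneg (subset_univ _) fun v _ _ =>
            vr_nonneg' hL.mixed v
    rw [h1, sum_add_distrib]
    have h4 : ξ / 4 * s ≤ ξ * s := by nlinarith
    linarith)
  have h1 : ∑ u, ∑ v, w u v * |h u - h v| =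
      2 * (d * ∑ v, h v) - 2 * ∑ u, ∑ v, w u v * min (h u) (h v) := by
    have e : ∀ u v, w u v * |h u - h v| = w u v * h u + w u v * h v -
        2 * (w u v * min (h u) (h v)) := by
      intro u v
      rcases le_total (h u) (h v) with h' | h'
      · rw [min_eq_left h', abs_of_nonpos (by linarith)]; ring
      · rw [min_eq_right h', abs_of_nonneg (by linarith)]; ring
    simp only [e, sum_sub_distrib, sum_add_distrib, ← mul_sum]
    rw [sum_row hr h, sum_col hs hr h]
    ring
  have h2 : ∑ u, ∑ v, w u v * |h u - h v| ≤ cutE w L := by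
    unfold cutE
    refine sum_le_sum fun u _ => sum_le_sum fun v _ => mul_le_mul_of_nonneg_left ?_ (hw u v)
    refine le_trans ?_ (abs_le_dis hL.mixed u v)
    calc |h u - h v| ≤ |max (pr L u true - 1 / 2) 0 - max (pr L v true - 1 / 2) 0| :=
          abs_inf_sub_inf_le_abs _ _ _
      _ ≤ |(pr L u true - 1 / 2) - (pr L v true - 1 / 2)| := abs_sup_sub_sup_le_abs _ _ _
      _ = |pr L u true - pr L v true| := by congr 1; ring
  have h3 : s / 8 ≤ ∑ v, h v := by
    have h4 : ∀ v, (pr L v true - 2 * vr L v) / 4 ≤ h v := by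
      intro v
      have e1 := hp0 v
      have e2 := hp1 v
      rw [vr_eq hL.mixed v]
      rcases le_or_gt (3 / 4) (pr L v true) with h5 | h5
      · have h6 : h v = 1 / 4 := by
          simp only [h]
          apply min_eq_right
          exact le_trans (by linarith) (le_max_left _ _)
        rw [h6]
        have := mul_nonneg e1 (sub_nonneg.2 e2)
        linarith
      · refine le_trans ?_ (hh0 v)
        nlinarith
    have h5 : ∑ v, (pr L v true - 2 * vr L v) / 4 ≤ ∑ v, h v := sum_le_sum fun v _ => h4 v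
    rw [← sum_div, sum_sub_distrib, ← mul_sum, hL.sum_pr] at h5
    change (s - 2 * Phi univ L) / 4 ≤ _ at h5
    have h6 : ξ / 4 * s ≤ s / 4 := by nlinarith
    linarith
  have h4 : 2 * (φ * d * ∑ v, h v) ≤ 4 * ε * d * s := by
    have : 2 * (d * ∑ v, h v) - 2 * ((1 - φ) * d * ∑ v, h v) = 2 * (φ * d * ∑ v, h v) := by ring
    linarith
  have h5 := mul_le_mul_of_nonneg_left h3 (by positivity : 0 ≤ φ * d)
  have h6 : 0 < d * s := by positivity
  have h7 := mul_le_mul_of_nonneg_right hεφ h6.le
  have h8 : 0 < φ * (d * s) := by positivity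
  linarith

/-- the trade-off -/
theorem trade (G : SimpleGraph V) (d s k : ℕ) (ε φ ξ : ℝ) (hG : Regular G d) (hd : 1 ≤ d)
    (hs : 1 ≤ s) (hε : 0 < ε) (hφ : 0 < φ) (hφ1 : φ < 1) (hξ : 0 < ξ) (hξ1 : ξ ≤ 1)
    (hεξ : 32 * ε ≤ ξ) (hεφ : 32 * ε ≤ φ)
    (hexp : ∀ S : Finset V, S.Nonempty → (S.card : ℝ) ≤ (1 + ξ) * s → φ * (d * S.card) ≤ cut G S)
    (hk : 2 ^ 14 / ξ * ((Fintype.card V : ℝ) / s *
      (Fintype.card V : ℝ) ^ (2 ^ 12 * ε / (ξ * Real.log (1 / (1 - φ ^ 2))))) ≤ k)
    (L : ((V → Bool) → ℝ) →ₗ[ℝ] ℝ) (hL : Sol G d s ε k L) : False := by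
  obtain ⟨hL, hcut⟩ := hL
  have hw := gw_nonneg G
  have hws := gw_symm G
  have hr := gw_row hG
  obtain ⟨w, hwdef⟩ : ∃ w, w = gw G := ⟨_, rfl⟩
  have hcE := cutE_eq G L hL.mixed.one
  have hadd := cut_add G d hG
  rw [← hwdef] at hw hws hr hcE hadd
  have hd0 : (0 : ℝ) < d := by exact_mod_cast hd
  have hs0 : (0 : ℝ) < s := by exact_mod_cast hs
  have hE : ∀ T : Finset V, (T.card : ℝ) ≤ (1 + ξ) * s → eIn w T ≤ (1 - φ) * d * T.card := by
    intro T hT
    rcases T.eq_empty_or_nonempty with rfl | hne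
    · simp [eIn]
    · have h1 := hexp T hne hT
      have h2 := hadd T
      linarith
  -- `n` is large
  obtain ⟨n, hndef⟩ : ∃ n : ℕ, n = Fintype.card V := ⟨_, rfl⟩
  have hn : (s : ℝ) ≤ n := by
    have h1 : (s : ℝ) = ∑ v, pr L v true := hL.sum_pr.symm
    rw [h1, hndef]
    calc ∑ v, pr L v true ≤ ∑ _v : V, (1 : ℝ) := sum_le_sum fun v _ => pr_le_one hL.mixed v
      _ = _ := by simp
  rw [← hndef] at hk
  have hn0 : (0 : ℝ) < n := by linarith
  have hn1 : (1 : ℝ) ≤ n := le_trans (by exact_mod_cast hs) hn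
  have hns : 1 ≤ (n : ℝ) / s := by rwa [le_div_iff₀ hs0, one_mul]
  have hcard : 1 ≤ Fintype.card V := by rw [← hndef]; exact_mod_cast hn1
  obtain ⟨Λ, hΛ⟩ : ∃ Λ, Λ = Real.log (1 / (1 - φ ^ 2)) := ⟨_, rfl⟩
  have hφ2 : 0 < 1 - φ ^ 2 := by nlinarith
  have hΛ0 : 0 < Λ := by
    rw [hΛ]
    apply Real.log_pos
    rw [lt_div_iff₀ hφ2]
    nlinarith
  rw [← hΛ] at hk
  obtain ⟨x, hx⟩ : ∃ x, x = 2 ^ 12 * ε / (ξ * Λ) := ⟨_, rfl⟩
  rw [← hx] at hk
  have hnx : (0 : ℝ) < (n : ℝ) ^ x := Real.rpow_pos_of_pos hn0 _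
  have hpot : pot w univ s (2 * ε * d * s) L ≤ 2 := by
    unfold pot
    have h1 : Phi univ L / (2 * s) ≤ 1 := by
      rw [div_le_one (by linarith)]
      calc Phi univ L ≤ ∑ v, 2 * pr L v true := sum_le_sum fun v _ => by
            rw [vr_eq hL.mixed v]
            have := Mx.pr_nonneg hL.mixed v true
            nlinarith
        _ = 2 * s := by rw [← mul_sum, hL.sum_pr]
    have h2 : cutE w L / (2 * ε * d * s) ≤ 1 := by
      rw [div_le_one (by positivity), hcE]
      linarith
    linarith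
  -- it suffices to find large correlations
  have main : ∀ Γ : ℝ, 0 < Γ → Γ = Real.exp (-(8 * (16 * ε / ξ))) * (n : ℝ) ^ (-x) /
      (1 + n * (16 / s)) → (∀ (k : ℕ) (L : ((V → Bool) → ℝ) →ₗ[ℝ] ℝ), Lev (s : ℝ) k L →
      cutE w L ≤ 2 * (2 * ε * d * s) → 2 * (ξ / 8) * s < Phi univ L →
      Γ * (Phi univ L / 2) ^ 2 ≤ ∑ u, ∑ v, cov L u v ^ 2) → False := by
    intro Γ hΓ0 hΓ hcor
    have hk2 : 2 ≤ k * (Γ * (ξ / 8)) := by
      have h1 : 1 + n * (16 / s) ≤ 17 * ((n : ℝ) / s) := by
        have : (n : ℝ) * (16 / s) = 16 * (n / s) := by ring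
        linarith
      have h4 : Real.exp (8 * (16 * ε / ξ)) ≤ 55 := by
        calc Real.exp (8 * (16 * ε / ξ)) ≤ Real.exp 4 := Real.exp_le_exp.2 (by
              rw [mul_div_assoc', div_le_iff₀ hξ]
              linarith)
          _ = Real.exp 1 ^ 4 := by rw [← Real.exp_nat_mul]; norm_num
          _ ≤ 2.7182818286 ^ 4 := pow_le_pow_left₀ (Real.exp_pos 1).le Real.exp_one_lt_d9.le 4
          _ ≤ 55 := by norm_num
      have h6 : Γ = 1 / (Real.exp (8 * (16 * ε / ξ)) * (n : ℝ) ^ x * (1 + n * (16 / s))) := by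
        rw [hΓ, Real.exp_neg, Real.rpow_neg hn0.le]
        field_simp
      obtain ⟨Z, hZ⟩ : ∃ Z, Z = Real.exp (8 * (16 * ε / ξ)) * (n : ℝ) ^ x *
        (1 + n * (16 / s)) := ⟨_, rfl⟩
      have hZ0 : 0 < Z := by rw [hZ]; positivity
      have h7 : Z ≤ 935 * ((n : ℝ) / s * (n : ℝ) ^ x) := by
        rw [hZ]
        calc Real.exp (8 * (16 * ε / ξ)) * (n : ℝ) ^ x * (1 + n * (16 / s)) ≤
              55 * (n : ℝ) ^ x * (17 * (n / s)) :=
              mul_le_mul (mul_le_mul_of_nonneg_right h4 hnx.le) h1 (by positivity)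
                (by positivity)
          _ = _ := by ring
      rw [h6, ← hZ]
      have h8 : (k : ℝ) * (1 / Z * (ξ / 8)) = k * ξ / (8 * Z) := by
        field_simp
      rw [h8, le_div_iff₀ (by linarith)]
      have h9 : 0 < (n : ℝ) / s * (n : ℝ) ^ x := by positivity
      have h10 := mul_le_mul_of_nonneg_right hk hξ.le
      have h11 : 2 ^ 14 / ξ * ((n : ℝ) / s * (n : ℝ) ^ x) * ξ =
          2 ^ 14 * ((n : ℝ) / s * (n : ℝ) ^ x) := by
        field_simp
      rw [h11] at h10
      norm_num at h10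
      linarith
    obtain ⟨L', hL', hPhi, hcut'⟩ := reach w hw univ s (2 * ε * d * s) (ξ / 8) Γ hs0
      (by positivity) (by positivity) hΓ0 hcor k L hL (hpot.trans hk2) hpot
    exact no_integral hw hws hd0 hr hs0 ε φ ξ hφ hεφ hξ hξ1 hE hL' (by linarith) (by linarith)
  have hsd : ∀ u ∈ (univ : Finset V), ∑ v ∈ univ \ (univ : Finset V), w u v ≤ 0 * d := by
    intro u _
    simp
  rcases le_or_gt φ (15 / 16) with hφc | hφc
  · -- the lazy walk
    have hB : (2 : ℝ) / s ≤ 16 / s := by gcongr; norm_num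
    have hdec : ∀ g : V → ℝ, (∀ v, 0 ≤ g v) → ∑ v, g v ≤ 1 →
        ∑ u, ((laz w d).mulVec g u) ^ 2 ≤ (1 - φ ^ 2 / 4) * ∑ v, g v ^ 2 +
          (1 - (1 - φ ^ 2 / 4)) * (16 / s) := by
      intro g hg hg1
      refine (laz_dec hw hws hd0 hr φ s hφ.le hφ1.le hs0 (fun T hT => hE T (by nlinarith))
        g hg hg1).trans ?_
      have := mul_le_mul_of_nonneg_left hB (by nlinarith : 0 ≤ 1 - (1 - φ ^ 2 / 4))
      linarith
    have hρ : φ ^ 2 / 4 ≤ Real.log (1 / (1 - φ ^ 2 / 4)) := by
      have h1 : 0 < 1 - φ ^ 2 / 4 := by nlinarith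
      rw [one_div, Real.log_inv]
      have := Real.log_le_sub_one_of_pos h1
      linarith
    have hΛφ : Λ ≤ 9 * φ ^ 2 := by
      rw [hΛ]
      refine (Real.log_le_sub_one_of_pos (by positivity)).trans ?_
      rw [sub_le_iff_le_add, div_le_iff₀ hφ2]
      have h1 : φ ^ 2 ≤ 225 / 256 := by nlinarith
      nlinarith [sq_nonneg φ]
    refine main _ ?_ rfl fun k L hL h1 h2 => ?_
    · positivity
    · have h3 := energy hw hws hd0 hr univ 0 hsd hL.mixed
      have h4 := corr_cov (laz w d) (laz_symm hws d) (laz_nonneg hw hd0)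
        (laz_row hd0 hr) (1 - φ ^ 2 / 4) (16 / s) (by nlinarith) (by nlinarith)
        (by positivity) hdec univ hcard hL.mixed (16 * ε / ξ) x (by positivity)
        (by rw [div_le_iff₀ hξ]; linarith) (by
          rw [hx]
          have h5 : 0 < φ ^ 2 / 4 := by positivity
          calc 4 * (16 * ε / ξ) / Real.log (1 / (1 - φ ^ 2 / 4)) ≤
                4 * (16 * ε / ξ) / (φ ^ 2 / 4) :=
                div_le_div_of_nonneg_left (by positivity) h5 hρ
            _ = 256 * ε / (ξ * φ ^ 2) := by field_simp; ring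
            _ ≤ 2 ^ 12 * ε / (ξ * Λ) := by
                rw [div_le_div_iff₀ (by positivity) (by positivity)]
                have h6 := mul_le_mul_of_nonneg_left hΛφ (by positivity : 0 ≤ 256 * ε * ξ)
                have h7 : 0 ≤ ε * ξ * φ ^ 2 := by positivity
                nlinarith)
        (by
          have h5 : ∑ u, ∑ v, laz w d u v * cov L u v =
              Phi univ L / 4 + (∑ u, ∑ v, w u v * cov L u v) / d / 2 := by
            unfold laz Phi
            have e1 : ∀ u v, ((if u = v then (1 : ℝ) / 2 else 0) + w u v / (2 * d)) * cov L u v =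
                (if u = v then cov L u v / 2 else 0) + w u v * cov L u v / d / 2 := by
              intro u v
              split_ifs
              · field_simp
              · field_simp
                ring
            simp only [e1, sum_add_distrib, ← sum_div, sum_ite_eq, mem_univ, if_true]
            congr 1
            rw [sum_div, sum_div]
            refine sum_congr rfl fun u _ => ?_
            rw [cov_self hL.mixed u]
            ring
          rw [h5]
          have h6 : cutE w L / (2 * d) ≤ 2 * ε * s := by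
            rw [div_le_iff₀ (by linarith)]
            linarith
          have h7 : 2 * ε * s ≤ 16 * ε / ξ * (Phi univ L / 2) := by
            rw [div_mul_eq_mul_div, le_div_iff₀ hξ]
            nlinarith
          have h8 : 0 ≤ 16 * ε / ξ * (Phi univ L / 2) :=
            mul_nonneg (by positivity) (by linarith [Phi_nonneg univ hL.mixed])
          linarith)
      rw [← hndef] at h4
      exact h4
  · -- almost perfect expansion
    obtain ⟨θ, hθ⟩ : ∃ θ, θ = 1 - φ := ⟨_, rfl⟩
    have hθ0 : 0 < θ := by rw [hθ]; linarith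
    have hθ1 : θ < 1 / 16 := by rw [hθ]; linarith
    have hdec := kil_dec hw hws hd0 hr univ θ s hθ0 hθ1.le hs0 (by
      intro T _ hT
      rw [hθ]
      exact hE T (by nlinarith))
    obtain ⟨l', hl'⟩ : ∃ l', l' = Real.log (1 / (8 * θ)) := ⟨_, rfl⟩
    have hl2 : Real.log 2 ≤ l' := by
      rw [hl']
      apply Real.log_le_log (by norm_num)
      rw [le_div_iff₀ (by positivity)]
      linarith
    have hlog2 := Real.log_two_gt_d9
    have hl0 : 0 < l' := by linarith
    have hΛl : Λ ≤ 4 * l' := by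
      have h1 : Λ ≤ Real.log (1 / θ) := by
        rw [hΛ]
        apply Real.log_le_log (by positivity)
        apply one_div_le_one_div_of_le hθ0
        have : φ = 1 - θ := by rw [hθ]; ring
        rw [this]
        nlinarith
      have h2 : Real.log (1 / θ) = Real.log 8 + l' := by
        rw [hl', ← Real.log_mul (by norm_num) (by positivity)]
        congr 1
        field_simp
      have h3 : Real.log 8 = 3 * Real.log 2 := by
        have h4 : (8 : ℝ) = 2 ^ 3 := by norm_num
        rw [h4, Real.log_pow]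
        norm_num
      linarith
    refine main _ ?_ rfl fun k L hL h1 h2 => ?_
    · positivity
    · have h3 := energy hw hws hd0 hr univ 0 hsd hL.mixed
      have h4 := corr_cov (kil w d univ) (kil_symm hws d univ) (kil_nonneg hw hd0 univ)
        (kil_row hw hd0 hr univ) (8 * θ) (16 / s) (by positivity) (by linarith)
        (by positivity) hdec univ hcard hL.mixed (16 * ε / ξ) x (by positivity)
        (by rw [div_le_iff₀ hξ]; linarith) (by
          rw [← hl', hx, div_le_div_iff₀ hl0 (by positivity)]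
          have h6 := mul_le_mul_of_nonneg_left hΛl (by positivity : 0 ≤ 64 * ε)
          have h7 : 0 ≤ ε * l' := by positivity
          have h8 : 4 * (16 * ε / ξ) * (ξ * Λ) = 64 * ε * Λ := by field_simp; ring
          rw [h8]
          nlinarith)
        (by
          have h5 : ∑ u, ∑ v, kil w d univ u v * cov L u v =
              (∑ u, ∑ v, w u v * cov L u v) / d := by
            rw [sum_div]
            refine sum_congr rfl fun u hu => ?_
            rw [sum_div]
            refine sum_congr rfl fun v hv => ?_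
            unfold kil
            rw [if_pos ⟨hu, hv⟩]
            ring
          rw [h5]
          have h6 : cutE w L / (2 * d) ≤ 2 * ε * s := by
            rw [div_le_iff₀ (by linarith)]
            linarith
          have h7 : 2 * ε * s ≤ 16 * ε / ξ * (Phi univ L / 2) := by
            rw [div_mul_eq_mul_div, le_div_iff₀ hξ]
            nlinarith
          linarith)
      rw [← hndef] at h4
      exact h4

end

end Pool.Agent.N587.SE
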