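import Mathlib

/-!
Small-set expansion: layer cake, local Cheeger inequality, powers of the walk.
-/

set_option autoImplicit false
set_option linter.unusedSectionVars false
set_option linter.unusedVariables false

namespace Pool.Agent.N587.SE

open Finset

section
variable {V : Type} [Fintype V] [DecidableEq V]

/-- the weight inside `T` (every pair is counted twice) -/
def eIn (w : V → V → ℝ) (T : Finset V) : ℝ := ∑ u ∈ T, ∑ v ∈ T, w u v

/-- the layer cake argument -/
theorem layer (w : V → V → ℝ) (κ : ℝ) : ∀ (N : ℕ) (h : V → ℝ), (∀ v, 0 ≤ h v) →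
    (univ.filter fun v => 0 < h v).card ≤ N →
    (∀ T : Finset V, (∀ v ∈ T, 0 < h v) → eIn w T ≤ κ * T.card) →
    ∑ u, ∑ v, w u v * min (h u) (h v) ≤ κ * ∑ v, h v := by
  intro N
  induction N with
  | zero =>
    intro h hh hN hT
    have h0 : ∀ v, h v = 0 := by
      intro v
      by_contra hv
      have h1 : 0 < h v := lt_of_le_of_ne (hh v) (Ne.symm hv)
      have h2 : v ∈ univ.filter fun v => 0 < h v := by simp [h1]
      have h3 := card_pos.2 ⟨v, h2⟩
      omega
    simp [h0]
  | succ N ih =>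
    intro h hh hN hT
    obtain ⟨S, hS⟩ : ∃ S : Finset V, S = univ.filter fun v => 0 < h v := ⟨_, rfl⟩
    have hmem : ∀ v, v ∈ S ↔ 0 < h v := fun v => by simp [hS]
    rcases S.eq_empty_or_nonempty with he | hne
    · apply ih h hh _ hT
      rw [← hS, he]
      simp
    · obtain ⟨v0, hv0, hmin⟩ := S.exists_min_image h hne
      have hm : 0 < h v0 := (hmem v0).1 hv0
      obtain ⟨m, hmdef⟩ : ∃ m, m = h v0 := ⟨_, rfl⟩
      rw [← hmdef] at hm hmin
      let h' : V → ℝ := fun v => if v ∈ S then h v - m else 0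
      have hz : ∀ v, v ∉ S → h v = 0 := fun v hv =>
        le_antisymm (not_lt.1 fun h1 => hv ((hmem v).2 h1)) (hh v)
      have hh' : ∀ v, 0 ≤ h' v := by
        intro v
        simp only [h']
        split_ifs with h1
        · linarith [hmin v h1]
        · exact le_rfl
      have hsub : ∀ v, 0 < h' v → 0 < h v := by
        intro v hv
        simp only [h'] at hv
        split_ifs at hv with h1
        · exact (hmem v).1 h1
        · exact absurd hv (lt_irrefl _)
      have hcard : (univ.filter fun v => 0 < h' v).card ≤ N := by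
        have h1 : (univ.filter fun v => 0 < h' v) ⊆ S.erase v0 := by
          intro v hv
          rw [mem_filter] at hv
          rw [mem_erase, hmem]
          refine ⟨?_, hsub v hv.2⟩
          rintro rfl
          have h2 := hv.2
          simp only [h', hv0, if_true] at h2
          linarith
        have h2 := card_le_card h1
        rw [card_erase_of_mem hv0] at h2
        rw [← hS] at hN
        omega
      have h1 := ih h' hh' hcard fun T hT' => hT T fun v hv => hsub v (hT' v hv)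
      have h2 : ∀ u v, w u v * min (h u) (h v) = w u v * min (h' u) (h' v) +
          m * (if u ∈ S then (if v ∈ S then w u v else 0) else 0) := by
        intro u v
        by_cases hu : u ∈ S
        · by_cases hv : v ∈ S
          · simp only [h', hu, hv, if_true, min_sub_sub_right]
            ring
          · simp only [h', hu, hv, if_true, if_false, hz v hv, mul_zero, add_zero]
            rw [min_eq_right (hh u), min_eq_right (by linarith [hmin u hu])]
        · simp only [h', hu, if_false, hz u hu, mul_zero, add_zero]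
          rw [min_eq_left (hh v)]
          have := hh' v
          simp only [h'] at this
          rw [min_eq_left this]
      have h3 : ∑ u, ∑ v, (if u ∈ S then (if v ∈ S then w u v else 0) else 0) = eIn w S := by
        unfold eIn
        rw [← sum_filter_add_sum_filter_not univ (fun u => u ∈ S)]
        have e1 : (univ.filter fun u => u ∈ S) = S := by ext; simp
        rw [e1, sum_eq_zero (s := univ.filter fun u => ¬ u ∈ S), add_zero]
        · refine sum_congr rfl fun u hu => ?_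
          simp only [hu, if_true]
          rw [← sum_filter, e1]
        · intro u hu
          rw [mem_filter] at hu
          simp [hu.2]
      have h4 : ∑ v, h v = ∑ v, h' v + m * S.card := by
        have : ∀ v, h v = h' v + (if v ∈ S then m else 0) := by
          intro v
          simp only [h']
          split_ifs with h1
          · ring
          · rw [hz v h1, add_zero]
        have e2 : ∑ v, (if v ∈ S then m else 0) = m * S.card := by
          rw [← sum_filter]
          have e1 : (univ.filter fun u => u ∈ S) = S := by ext; simp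
          rw [e1, sum_const, nsmul_eq_mul, mul_comm m]
        rw [sum_congr rfl fun v _ => this v, sum_add_distrib, e2]
      have h5 : ∑ u, ∑ v, w u v * min (h u) (h v) = ∑ u, ∑ v, w u v * min (h' u) (h' v) +
          m * eIn w S := by
        rw [← h3, mul_sum, ← sum_add_distrib]
        refine sum_congr rfl fun u _ => ?_
        rw [mul_sum, ← sum_add_distrib]
        exact sum_congr rfl fun v _ => h2 u v
      rw [h5, h4]
      have h6 := mul_le_mul_of_nonneg_left (hT S fun v hv => (hmem v).1 hv) hm.le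
      nlinarith

/-- the sums of `w u v (h u)` -/
theorem sum_row {w : V → V → ℝ} {d : ℝ} (hd : ∀ u, ∑ v, w u v = d) (h : V → ℝ) :
    ∑ u, ∑ v, w u v * h u = d * ∑ v, h v := by
  rw [mul_sum]
  refine sum_congr rfl fun u _ => ?_
  rw [← sum_mul, hd]

theorem sum_col {w : V → V → ℝ} (hs : ∀ u v, w u v = w v u) {d : ℝ}
    (hd : ∀ u, ∑ v, w u v = d) (h : V → ℝ) :
    ∑ u, ∑ v, w u v * h v = d * ∑ v, h v := by
  rw [sum_comm, ← sum_row hd h]
  exact sum_congr rfl fun u _ => sum_congr rfl fun v _ => by rw [hs]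

/-- the local Cheeger inequality -/
theorem quad (w : V → V → ℝ) (hw : ∀ u v, 0 ≤ w u v) (hs : ∀ u v, w u v = w v u) (d : ℝ)
    (hd : ∀ u, ∑ v, w u v = d) (κ : ℝ) (hκd : κ ≤ d) (f : V → ℝ)
    (hf : ∀ v, 0 ≤ f v) (hT : ∀ T : Finset V, (∀ v ∈ T, 0 < f v) → eIn w T ≤ κ * T.card) :
    (∑ u, ∑ v, w u v * (f u * f v)) ^ 2 ≤ κ * (2 * d - κ) * (∑ v, f v ^ 2) ^ 2 := by
  obtain ⟨a, ha⟩ : ∃ a, a = ∑ u, ∑ v, w u v * (f u * f v) := ⟨_, rfl⟩
  obtain ⟨F, hF⟩ : ∃ F, F = ∑ v, f v ^ 2 := ⟨_, rfl⟩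
  have hF0 : 0 ≤ F := by rw [hF]; exact sum_nonneg fun v _ => sq_nonneg _
  have r1 := sum_row hd (fun v => f v ^ 2)
  have r2 := sum_col hs hd (fun v => f v ^ 2)
  rw [← hF] at r1 r2
  -- the total variation of the squares
  have h1 : ∑ u, ∑ v, w u v * |f u ^ 2 - f v ^ 2| =
      2 * (d * F) - 2 * ∑ u, ∑ v, w u v * min (f u ^ 2) (f v ^ 2) := by
    have e : ∀ u v, w u v * |f u ^ 2 - f v ^ 2| = w u v * f u ^ 2 + w u v * f v ^ 2 -
        2 * (w u v * min (f u ^ 2) (f v ^ 2)) := by
      intro u v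
      rcases le_total (f u ^ 2) (f v ^ 2) with h | h
      · rw [min_eq_left h, abs_of_nonpos (by linarith)]; ring
      · rw [min_eq_right h, abs_of_nonneg (by linarith)]; ring
    simp only [e, sum_sub_distrib, sum_add_distrib, ← mul_sum]
    rw [r1, r2]
    ring
  have h2 : ∑ u, ∑ v, w u v * min (f u ^ 2) (f v ^ 2) ≤ κ * F := by
    rw [hF]
    refine layer w κ _ (fun v => f v ^ 2) (fun v => sq_nonneg _) le_rfl fun T hT' => hT T ?_
    intro v hv
    have := hT' v hv
    exact lt_of_le_of_ne (hf v) fun h => by rw [← h] at this; simp at this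
  have h3 : 2 * ((d - κ) * F) ≤ ∑ u, ∑ v, w u v * |f u ^ 2 - f v ^ 2| := by
    rw [h1]; linarith
  have h4 : ∑ u, ∑ v, w u v * (f u - f v) ^ 2 = 2 * (d * F) - 2 * a := by
    have e : ∀ u v, w u v * (f u - f v) ^ 2 = w u v * f u ^ 2 + w u v * f v ^ 2 -
        2 * (w u v * (f u * f v)) := fun u v => by ring
    simp only [e, sum_sub_distrib, sum_add_distrib, ← mul_sum]
    rw [r1, r2, ha]
    ring
  have h5 : ∑ u, ∑ v, w u v * (f u + f v) ^ 2 = 2 * (d * F) + 2 * a := by
    have e : ∀ u v, w u v * (f u + f v) ^ 2 = w u v * f u ^ 2 + w u v * f v ^ 2 +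
        2 * (w u v * (f u * f v)) := fun u v => by ring
    simp only [e, sum_add_distrib, ← mul_sum]
    rw [r1, r2, ha]
    ring
  have h6 : (∑ u, ∑ v, w u v * |f u ^ 2 - f v ^ 2|) ^ 2 ≤
      (∑ u, ∑ v, w u v * (f u - f v) ^ 2) * (∑ u, ∑ v, w u v * (f u + f v) ^ 2) := by
    rw [← sum_product', ← sum_product', ← sum_product']
    refine sum_sq_le_sum_mul_sum_of_sq_le_mul _ (fun i _ => ?_) (fun i _ => ?_) fun i _ => ?_
    · exact mul_nonneg (hw _ _) (sq_nonneg _)
    · exact mul_nonneg (hw _ _) (sq_nonneg _)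
    · rw [mul_pow, sq_abs]; exact le_of_eq (by ring)
  rw [h4, h5] at h6
  have h7 : (2 * ((d - κ) * F)) ^ 2 ≤ (∑ u, ∑ v, w u v * |f u ^ 2 - f v ^ 2|) ^ 2 :=
    pow_le_pow_left₀ (by have := mul_nonneg (sub_nonneg.2 hκd) hF0; linarith) h3 2
  rw [← ha, ← hF]
  nlinarith

end

/-! ### powers of a symmetric matrix -/

section
variable {V : Type} [Fintype V] [DecidableEq V]

/-- decay of the squared norm of the powers -/
theorem decay (R : Matrix V V ℝ) (hpos : ∀ u v, 0 ≤ R u v) (hcol : ∀ v, ∑ u, R u v ≤ 1)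
    (ρ B : ℝ) (hρ0 : 0 ≤ ρ)
    (hdec : ∀ g : V → ℝ, (∀ v, 0 ≤ g v) → ∑ v, g v ≤ 1 →
      ∑ u, (R.mulVec g u) ^ 2 ≤ ρ * ∑ v, g v ^ 2 + (1 - ρ) * B) (u : V) (t : ℕ) :
    (∀ v, 0 ≤ (R ^ t) v u) ∧ ∑ v, (R ^ t) v u ≤ 1 ∧
      ∑ v, (R ^ t) v u ^ 2 ≤ ρ ^ t * (1 - B) + B := by
  induction t with
  | zero =>
    refine ⟨fun v => ?_, ?_, ?_⟩
    · rw [pow_zero, Matrix.one_apply]
      split_ifs <;> norm_num
    · simp [Matrix.one_apply]
    · have : ∀ v, ((1 : Matrix V V ℝ) v u) ^ 2 = if v = u then 1 else 0 := by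
        intro v
        rw [Matrix.one_apply]
        split_ifs <;> norm_num
      simp only [pow_zero, this]
      simp
  | succ t ih =>
    obtain ⟨i1, i2, i3⟩ := ih
    have e : ∀ v, (R ^ (t + 1)) v u = R.mulVec (fun x => (R ^ t) x u) v := by
      intro v
      rw [pow_succ', Matrix.mul_apply]
      rfl
    refine ⟨fun v => ?_, ?_, ?_⟩
    · rw [e]
      exact sum_nonneg fun x _ => mul_nonneg (hpos _ _) (i1 x)
    · simp only [e, Matrix.mulVec, dotProduct]
      rw [sum_comm]
      calc ∑ y, ∑ x, R x y * (R ^ t) y u = ∑ y, (∑ x, R x y) * (R ^ t) y u :=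
            sum_congr rfl fun y _ => (sum_mul _ _ _).symm
        _ ≤ ∑ y, 1 * (R ^ t) y u :=
            sum_le_sum fun y _ => mul_le_mul_of_nonneg_right (hcol y) (i1 y)
        _ ≤ 1 := by simpa using i2
    · simp only [e]
      refine (hdec _ i1 i2).trans ?_
      have := mul_le_mul_of_nonneg_left i3 hρ0
      rw [pow_succ]
      linarith

variable {J : Type} [Fintype J]

/-- the squared Frobenius norm -/
def fro (Y : Matrix V J ℝ) : ℝ := ∑ u, ∑ j, Y u j ^ 2

theorem fro_nonneg (Y : Matrix V J ℝ) : 0 ≤ fro Y :=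
  sum_nonneg fun u _ => sum_nonneg fun j _ => sq_nonneg _

/-- the inner product -/
def inn (Y Z : Matrix V J ℝ) : ℝ := ∑ u, ∑ j, Y u j * Z u j

theorem inn_sq_le (Y Z : Matrix V J ℝ) : inn Y Z ^ 2 ≤ fro Y * fro Z := by
  unfold inn fro
  rw [← sum_product', ← sum_product', ← sum_product']
  refine sum_sq_le_sum_mul_sum_of_sq_le_mul _ (fun i _ => sq_nonneg _) (fun i _ => sq_nonneg _)
    fun i _ => le_of_eq (by ring)

theorem inn_self (Y : Matrix V J ℝ) : inn Y Y = fro Y := by
  unfold inn fro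
  exact sum_congr rfl fun u _ => sum_congr rfl fun j _ => by ring

theorem inn_trace (Y Z : Matrix V J ℝ) : inn Y Z = (Y.transpose * Z).trace := by
  unfold inn
  rw [Matrix.trace, sum_comm]
  refine sum_congr rfl fun j _ => ?_
  rw [Matrix.diag_apply, Matrix.mul_apply]
  rfl

theorem inn_mul (R : Matrix V V ℝ) (hR : R.transpose = R) (Y Z : Matrix V J ℝ) :
    inn (R * Y) Z = inn Y (R * Z) := by
  rw [inn_trace, inn_trace, Matrix.transpose_mul, hR, Matrix.mul_assoc]

/-- log-convexity of the energies -/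
theorem logconv (R : Matrix V V ℝ) (hR : R.transpose = R) (Y : Matrix V J ℝ) (σ : ℝ)
    (hσ : 0 ≤ σ) (h1 : σ * fro Y ≤ inn Y (R * Y)) (m : ℕ) :
    σ ^ (2 * m) * fro Y ≤ fro (R ^ m * Y) := by
  have hstep : ∀ i, σ ^ 2 * fro (R ^ i * Y) ≤ fro (R ^ (i + 1) * Y) := by
    intro i
    induction i with
    | zero =>
      rw [pow_zero, Matrix.one_mul, zero_add, pow_one]
      rcases (fro_nonneg Y).eq_or_lt with h0 | hpos
      · rw [← h0, mul_zero]; exact fro_nonneg _
      · have h2 := inn_sq_le Y (R * Y)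
        have h3 : (σ * fro Y) ^ 2 ≤ inn Y (R * Y) ^ 2 :=
          pow_le_pow_left₀ (mul_nonneg hσ hpos.le) h1 2
        have h4 : fro Y * (σ ^ 2 * fro Y) ≤ fro Y * fro (R * Y) := by nlinarith
        exact le_of_mul_le_mul_left h4 hpos
    | succ i ih =>
      have e1 : fro (R ^ (i + 1) * Y) = inn (R ^ i * Y) (R ^ (i + 2) * Y) := by
        rw [← inn_self]
        have : R ^ (i + 1) * Y = R * (R ^ i * Y) := by
          rw [pow_succ', Matrix.mul_assoc]
        nth_rw 1 [this]
        rw [inn_mul R hR, ← Matrix.mul_assoc, ← pow_succ']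
      have h2 := inn_sq_le (R ^ i * Y) (R ^ (i + 2) * Y)
      rw [← e1] at h2
      rcases (fro_nonneg (R ^ (i + 1) * Y)).eq_or_lt with h0 | hpos
      · rw [← h0, mul_zero]; exact fro_nonneg _
      · have hi := fro_nonneg (R ^ i * Y)
        have hi2 := fro_nonneg (R ^ (i + 2) * Y)
        -- fro(i+1)^2 ≤ fro i * fro (i+2), and σ² fro i ≤ fro (i+1)
        have h3 : fro (R ^ (i + 1) * Y) * (σ ^ 2 * fro (R ^ (i + 1) * Y)) ≤
            fro (R ^ (i + 1) * Y) * fro (R ^ (i + 2) * Y) := by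
          have h4 := mul_le_mul_of_nonneg_right ih hi2
          have h5 := mul_le_mul_of_nonneg_left h2 (sq_nonneg σ)
          nlinarith
        exact le_of_mul_le_mul_left h3 hpos
  induction m with
  | zero => simp
  | succ m ih =>
    refine le_trans ?_ (hstep m)
    have := mul_le_mul_of_nonneg_left ih (sq_nonneg σ)
    calc σ ^ (2 * (m + 1)) * fro Y = σ ^ 2 * (σ ^ (2 * m) * fro Y) := by ring
      _ ≤ _ := this

/-- large correlations -/
theorem corr (R : Matrix V V ℝ) (hR : R.transpose = R) (hpos : ∀ u v, 0 ≤ R u v)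
    (hrow : ∀ u, ∑ v, R u v ≤ 1) (ρ B : ℝ) (hρ0 : 0 ≤ ρ) (hB : 0 ≤ B)
    (hdec : ∀ g : V → ℝ, (∀ v, 0 ≤ g v) → ∑ v, g v ≤ 1 →
      ∑ u, (R.mulVec g u) ^ 2 ≤ ρ * ∑ v, g v ^ 2 + (1 - ρ) * B)
    (Y : Matrix V J ℝ) (σ : ℝ) (hσ : 0 ≤ σ) (h1 : σ * fro Y ≤ inn Y (R * Y)) (m : ℕ) :
    (σ ^ (2 * m) * fro Y) ^ 2 ≤ (Fintype.card V * (ρ ^ (2 * m) + B)) *
      ∑ u, ∑ v, (∑ j, Y u j * Y v j) ^ 2 := by
  have hcol : ∀ v, ∑ u, R u v ≤ 1 := by
    intro v
    refine le_trans (le_of_eq (sum_congr rfl fun u _ => ?_)) (hrow v)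
    have := congrFun (congrFun hR v) u
    rw [Matrix.transpose_apply] at this
    exact this
  have hl := logconv R hR Y σ hσ h1 m
  have e1 : fro (R ^ m * Y) = ∑ u, ∑ v, (R ^ (2 * m)) v u * (∑ j, Y u j * Y v j) := by
    rw [← inn_self]
    have hRm : (R ^ m).transpose = R ^ m := by rw [Matrix.transpose_pow, hR]
    rw [inn_mul (R ^ m) hRm, ← Matrix.mul_assoc, ← pow_add, ← two_mul]
    have hR2 : (R ^ (2 * m)).transpose = R ^ (2 * m) := by rw [Matrix.transpose_pow, hR]
    unfold inn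
    refine sum_congr rfl fun u _ => ?_
    simp only [Matrix.mul_apply, mul_sum]
    rw [sum_comm]
    refine sum_congr rfl fun v _ => sum_congr rfl fun j _ => ?_
    have h2 := congrFun (congrFun hR2 u) v
    rw [Matrix.transpose_apply] at h2
    rw [h2]
    ring
  have e2 : (fro (R ^ m * Y)) ^ 2 ≤ (∑ u, ∑ v, (R ^ (2 * m)) v u ^ 2) *
      ∑ u, ∑ v, (∑ j, Y u j * Y v j) ^ 2 := by
    rw [e1, ← sum_product', ← sum_product', ← sum_product']
    refine sum_sq_le_sum_mul_sum_of_sq_le_mul _ (fun i _ => sq_nonneg _) (fun i _ => sq_nonneg _)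
      fun i _ => le_of_eq (by ring)
  have e3 : ∑ u, ∑ v, (R ^ (2 * m)) v u ^ 2 ≤ Fintype.card V * (ρ ^ (2 * m) + B) := by
    calc ∑ u, ∑ v, (R ^ (2 * m)) v u ^ 2 ≤ ∑ _u : V, (ρ ^ (2 * m) + B) := by
          refine sum_le_sum fun u _ => ?_
          have h2 := (decay R hpos hcol ρ B hρ0 hdec u (2 * m)).2.2
          have h3 : 0 ≤ ρ ^ (2 * m) * B := by positivity
          linarith
      _ = _ := by rw [sum_const, nsmul_eq_mul, Finset.card_univ]
  have h0 : 0 ≤ σ ^ (2 * m) * fro Y := mul_nonneg (pow_nonneg hσ _) (fro_nonneg Y)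
  refine (pow_le_pow_left₀ h0 hl 2).trans (e2.trans ?_)
  exact mul_le_mul_of_nonneg_right e3 (sum_nonneg fun u _ => sum_nonneg fun v _ => sq_nonneg _)

end

end Pool.Agent.N587.SE
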